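import Mathlib

/-!
# Sums of units (MP_c80192_nt): the Subspace theorem for units. Definitions and targets.

Every `T_XXX : Prop` is to be proved as a theorem `XXX` in its own file, in the namespace
`Pool.Agent.H21.UE`, other targets being hypotheses, for example
`theorem ROTH (h1 : T_HAS.{u}) ... : T_ROTH.{u}`.
-/

open MvPolynomial NumberField

namespace Pool.Agent.H21.UE

universe u

/-! ## polynomials -/

/-- weighted `ℓ¹` norm -/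
noncomputable def wn {κ : Type*} [Fintype κ] (ϱ : κ → ℝ) (p : MvPolynomial κ ℂ) : ℝ :=
  ∑ J ∈ p.support, ‖p.coeff J‖ * ∏ i, ϱ i ^ J i

/-- `ℓ¹` norm of an integer polynomial -/
noncomputable def l1 {κ : Type*} (p : MvPolynomial κ ℤ) : ℝ :=
  ∑ J ∈ p.support, |((p.coeff J : ℤ) : ℝ)|

/-- Hasse derivative of order `I` -/
noncomputable def hasse {κ R : Type*} [Fintype κ] [CommSemiring R] (I : κ →₀ ℕ)
    (p : MvPolynomial κ R) : MvPolynomial κ R :=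
  ∑ J ∈ p.support, monomial (J - I) ((∏ i, ((J i).choose (I i) : R)) * p.coeff J)

/-- the polynomial `p(x + ξ)` -/
noncomputable def tay {κ R : Type*} [CommSemiring R] (ξ : κ → R) (p : MvPolynomial κ R) :
    MvPolynomial κ R :=
  aeval (fun i => X i + C (ξ i)) p

/-- the index of `p` at `ξ` with respect to `r` is at least `θ` -/
def IndGE {κ R : Type*} [Fintype κ] [CommSemiring R] (ξ : κ → R) (r : κ → ℝ) (θ : ℝ)
    (p : MvPolynomial κ R) : Prop :=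
  ∀ J : κ →₀ ℕ, (∑ i, (J i : ℝ) / r i) < θ → (tay ξ p).coeff J = 0

/-- the height of the algebraic number `ξ` is small: some `d ≠ 0` clears the denominator, and `d`
and all conjugates of `d ξ` are at most `T` -/
def Ht {L : Type u} [Field L] (ξ : L) (T : ℝ) : Prop :=
  ∃ d : ℤ, d ≠ 0 ∧ |(d : ℝ)| ≤ T ∧ IsIntegral ℤ ((d : L) * ξ) ∧
    ∀ φ : L →+* ℂ, ‖φ ((d : L) * ξ)‖ ≤ T

/-- HAS: facts about Hasse derivatives, Taylor expansion and the index. -/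
def T_HAS : Prop :=
  -- coefficients
  (∀ (m : ℕ) (R : Type u) [CommRing R] (I J : Fin m →₀ ℕ) (p : MvPolynomial (Fin m) R),
    (hasse I p).coeff J = (∏ i, ((J i + I i).choose (I i) : R)) * p.coeff (J + I)) ∧
  -- norm
  (∀ (m : ℕ) (I : Fin m →₀ ℕ) (r : Fin m → ℕ) (p : MvPolynomial (Fin m) ℤ),
    (∀ i, p.degreeOf i ≤ r i) → (∀ i, (hasse I p).degreeOf i ≤ r i) ∧
      l1 (hasse I p) ≤ 2 ^ (∑ i, r i) * l1 p) ∧
  -- index of a Hasse derivative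
  (∀ (m : ℕ) (R : Type u) [CommRing R] (ξ : Fin m → R) (r : Fin m → ℝ) (θ : ℝ)
    (I : Fin m →₀ ℕ) (p : MvPolynomial (Fin m) R), (∀ i, 0 < r i) → IndGE ξ r θ p →
    IndGE ξ r (θ - ∑ i, (I i : ℝ) / r i) (hasse I p)) ∧
  -- index of products and determinants
  (∀ (m : ℕ) (R : Type u) [CommRing R] (ξ : Fin m → R) (r : Fin m → ℝ) (θ θ' : ℝ)
    (p q : MvPolynomial (Fin m) R), (∀ i, 0 < r i) → IndGE ξ r θ p → IndGE ξ r θ' q →
    IndGE ξ r (θ + θ') (p * q)) ∧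
  (∀ (m k : ℕ) (R : Type u) [CommRing R] (ξ : Fin m → R) (r : Fin m → ℝ) (θ : Fin k → ℝ)
    (A : Matrix (Fin k) (Fin k) (MvPolynomial (Fin m) R)), (∀ i, 0 < r i) →
    (∀ i j, IndGE ξ r (θ j) (A i j)) → IndGE ξ r (∑ j, θ j) A.det)

/-- WRO: generalised Wronskians. -/
def T_WRO : Prop := ∀ (m k : ℕ) (φ : Fin k → MvPolynomial (Fin m) ℚ), LinearIndependent ℚ φ →
  ∃ I : Fin k → (Fin m →₀ ℕ), (∀ i, (I i).degree ≤ i) ∧
    (Matrix.of fun i j => hasse (I i) (φ j)).det ≠ 0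

/-- BAS: one variable. -/
def T_BAS : Prop := ∀ (L : Type u) [Field L] [NumberField L] (ξ : L) (p : Polynomial ℤ) (j : ℕ)
  (T : ℝ), p ≠ 0 → 1 ≤ j → (Polynomial.X - Polynomial.C ξ) ^ j ∣ p.map (Int.castRingHom L) →
  0 ≤ T → (∑ i ∈ p.support, |((p.coeff i : ℤ) : ℝ)|) ≤ T ^ j → Ht ξ T

/-- ROTH: Roth's lemma (variable `0` has the smallest degree). -/
def T_ROTH : Prop := ∀ m : ℕ, 1 ≤ m → ∀ ε : ℝ, 0 < ε → ∃ ω : ℝ, 0 < ω ∧
  ∀ (L : Type u) [Field L] [NumberField L] (ξ : Fin m → L) (r : Fin m → ℕ)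
    (p : MvPolynomial (Fin m) ℤ) (T : Fin m → ℝ), p ≠ 0 → (∀ h, 1 ≤ r h) →
    (∀ h h', h < h' → (r h : ℝ) ≤ ω * r h') → (∀ h, p.degreeOf h ≤ r h) →
    (∀ h, 1 ≤ T h) → (∀ h, ¬ Ht (ξ h) (T h)) →
    (∀ h h', Real.log (l1 p) + r h' ≤ ω * r h * Real.log (T h)) →
    ¬ IndGE ξ (fun h => (r h : ℝ)) ε (map (Int.castRingHom L) p)

/-! ## the auxiliary polynomial -/

/-- `P(A X)` -/
noncomputable def subst {m : ℕ} {ι R : Type*} [Fintype ι] [CommRing R] (A : Matrix ι ι R)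
    (P : MvPolynomial (Fin m × ι) R) : MvPolynomial (Fin m × ι) R :=
  aeval (fun q : Fin m × ι => ∑ j, C (A q.2 j) * X (q.1, j)) P

/-- CNT: most exponents are balanced. -/
def T_CNT : Prop := ∀ (ι : Type) [Fintype ι] [DecidableEq ι] [Nonempty ι] (m : ℕ) (r : Fin m → ℕ)
  (i : ι) (ε : ℝ), (∀ h, 1 ≤ r h) → 0 < ε →
  (((Fintype.piFinset fun h => Finset.piAntidiag (Finset.univ : Finset ι) (r h)).filter
      fun J : Fin m → ι → ℕ => ε * m < |∑ h, (J h i : ℝ) / r h - m / Fintype.card ι|).card : ℝ) *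
      (ε ^ 2 * m) ≤
    ((Fintype.piFinset fun h => Finset.piAntidiag (Finset.univ : Finset ι) (r h)).card : ℝ)

/-- AUX: the auxiliary polynomial. -/
def T_AUX : Prop := ∀ (ι : Type) [Fintype ι] [DecidableEq ι] [Nonempty ι] (κ : Type u) [Fintype κ]
  (A : κ → Matrix ι ι ℤ) (ε : ℝ), 0 < ε → ∃ (m₀ : ℕ) (D : ℝ), 1 ≤ D ∧ ∀ m, m₀ ≤ m →
  ∀ r : Fin m → ℕ, (∀ h, 1 ≤ r h) → ∃ P : MvPolynomial (Fin m × ι) ℤ, P ≠ 0 ∧
    (∀ J ∈ P.support, ∀ h, ∑ i, J (h, i) = r h) ∧ l1 P ≤ D ^ (∑ h, r h) ∧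
    ∀ v, ∀ J ∈ (subst (A v) P).support, ∀ i : ι,
      |∑ h, (J (h, i) : ℝ) / r h - m / Fintype.card ι| ≤ ε * m

/-! ## the arithmetic setting -/

section setting

variable {L : Type u} [Field L] [NumberField L] {ι : Type} [Fintype ι]

/-- the linear form number `i` at the place `v` -/
noncomputable def lf (B : InfinitePlace L → Matrix ι ι ℤ) (v : InfinitePlace L) (i : ι)
    (x : ι → L) : ℂ := ∑ j, (B v i j : ℂ) * v.embedding (x j)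

/-- integral vectors with `‖L_{v,i}(x)‖ ≤ μ w_{v,i}` -/
def Sm (B : InfinitePlace L → Matrix ι ι ℤ) (w : InfinitePlace L → ι → ℝ) (μ : ℝ) :
    Set (ι → L) := {x | (∀ j, IsIntegral ℤ (x j)) ∧ ∀ v i, ‖lf B v i x‖ ≤ μ * w v i}

/-- integral vectors with `‖L_{v,i}(x)‖ ≤ Q^{c_{v,i} - δ}` -/
def SQ (B : InfinitePlace L → Matrix ι ι ℤ) (c : InfinitePlace L → ι → ℝ) (δ Q : ℝ) :
    Set (ι → L) := {x | (∀ j, IsIntegral ℤ (x j)) ∧ ∀ v i, ‖lf B v i x‖ ≤ Q ^ (c v i - δ)}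

/-- `P(∑ z_h(i) X(h,i))` : the polynomial `P` in the coordinates given by the vectors `z_h(i)` -/
noncomputable def inCoord {m : ℕ} (z : Fin m → ι → ι → L) (P : MvPolynomial (Fin m × ι) ℤ) :
    MvPolynomial (Fin m × ι) L :=
  aeval (fun q : Fin m × ι => ∑ i, C (z q.1 i q.2) * X (q.1, i)) P

end setting

/-- EVAL: the auxiliary polynomial vanishes to high order at all small grid points. -/
def T_EVAL : Prop := ∀ (L : Type u) [Field L] [NumberField L] (ι : Type) [Fintype ι]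
  [DecidableEq ι] (B : InfinitePlace L → Matrix ι ι ℤ) (c : InfinitePlace L → ι → ℝ) (δ : ℝ),
  (∀ v, (B v).det ≠ 0) → (∑ v, ∑ i, (v.mult : ℝ) * c v i = 0) → 0 < δ →
  ∃ ε₀ : ℝ, 0 < ε₀ ∧ ∀ ε : ℝ, 0 < ε → ε ≤ ε₀ → ∀ (b : ℕ) (D : ℝ), 1 ≤ D → ∃ K : ℝ, 0 < K ∧
  ∀ (m : ℕ) (r : Fin m → ℕ) (Q : Fin m → ℝ) (R : ℝ), 1 ≤ m → 0 < R → (∀ h, 1 ≤ r h) →
  (∀ h, 1 ≤ Q h) → (∀ h, K ≤ Real.log (Q h)) →
  (∀ h, R ≤ r h * Real.log (Q h) ∧ r h * Real.log (Q h) ≤ (1 + ε) * R) →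
  ∀ P : MvPolynomial (Fin m × ι) ℤ, (∀ J ∈ P.support, ∀ h, ∑ i, J (h, i) = r h) →
  l1 P ≤ D ^ (∑ h, r h) →
  (∀ v, ∀ J ∈ (subst (B v).adjugate P).support, ∀ i : ι,
      |∑ h, (J (h, i) : ℝ) / r h - m / Fintype.card ι| ≤ ε * m) →
  ∀ (j₀ : Fin m → ι) (z : Fin m → ι → ι → L), (∀ h, z h (j₀ h) = Pi.single (j₀ h) 1) →
  (∀ h i, i ≠ j₀ h → z h i ∈ SQ B c δ (Q h)) →
  ∀ g : Fin m × ι → ℕ, (∀ q, g q < b) → (∀ h, g (h, j₀ h) = 0) →
  ∀ J : Fin m × ι →₀ ℕ, (∑ q, (J q : ℝ) / r q.1) < 2 * ε * m →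
    (tay (fun q => (g q : L)) (inCoord z P)).coeff J = 0

/-- GRID: vanishing at grid points implies vanishing on the subspaces. -/
def T_GRID : Prop := ∀ (K : Type u) [Field K] [CharZero K] (m : ℕ) (ι : Type) [Fintype ι]
  [DecidableEq ι] (j₀ : Fin m → ι) (r : Fin m → ℕ) (G : MvPolynomial (Fin m × ι) K) (b : ℕ)
  (η θ : ℝ), (∀ h, 1 ≤ r h) → (∀ q, G.degreeOf q ≤ r q.1) → 1 ≤ b →
  θ + m * Fintype.card ι / b ≤ η →
  (∀ g : Fin m × ι → ℕ, (∀ q, g q < b) → (∀ h, g (h, j₀ h) = 0) →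
    ∀ J : Fin m × ι →₀ ℕ, (∑ q, (J q : ℝ) / r q.1) < η →
      (tay (fun q => (g q : K)) G).coeff J = 0) →
  ∀ J ∈ G.support, θ ≤ ∑ h, (J (h, j₀ h) : ℝ) / r h

/-- SPEC: specialisation to one variable in each block. -/
def T_SPEC : Prop := ∀ (L : Type u) [Field L] [NumberField L] (m : ℕ) (ι : Type) [Fintype ι]
  [DecidableEq ι] (j₀ j₁ : Fin m → ι) (r : Fin m → ℕ) (a : Fin m → ι → L)
  (z : Fin m → ι → ι → L) (P : MvPolynomial (Fin m × ι) ℤ) (θ : ℝ),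
  (∀ h, j₁ h ≠ j₀ h) → (∀ h, 1 ≤ r h) → P ≠ 0 → (∀ J ∈ P.support, ∀ h, ∑ i, J (h, i) = r h) →
  (∀ h, a h (j₀ h) ≠ 0) → (∀ h, LinearIndependent L (z h)) →
  (∀ h i, i ≠ j₀ h → ∑ j, a h j * z h i j = 0) →
  (∀ J ∈ (inCoord z P).support, θ ≤ ∑ h, (J (h, j₀ h) : ℝ) / r h) →
  ∃ p : MvPolynomial (Fin m) ℤ, p ≠ 0 ∧ (∀ h, p.degreeOf h ≤ r h) ∧ l1 p ≤ l1 P ∧
    IndGE (fun h => -(a h (j₁ h) / a h (j₀ h))) (fun h => (r h : ℝ)) θ
      (map (Int.castRingHom L) p)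

/-- SMALL: all hyperplanes of small height coincide. -/
def T_SMALL : Prop := ∀ (L : Type u) [Field L] [NumberField L] (ι : Type) [Fintype ι]
  [DecidableEq ι] (B : InfinitePlace L → Matrix ι ι ℤ) (c : InfinitePlace L → ι → ℝ) (δ : ℝ),
  (∀ v, (B v).det ≠ 0) → (∑ v, ∑ i, (v.mult : ℝ) * c v i = 0) → 0 < δ →
  ∃ (ε₁ Q₀ : ℝ) (V₀ : Submodule L (ι → L)), 0 < ε₁ ∧ 1 ≤ Q₀ ∧ ∀ Q : ℝ, Q₀ ≤ Q →
  ∀ V : Submodule L (ι → L), Module.finrank L V + 1 = Fintype.card ι →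
  V = Submodule.span L (SQ B c δ Q) → V ≠ V₀ → ∀ a : ι → L, (∀ x ∈ V, ∑ j, a j * x j = 0) →
  ∀ j₀, a j₀ ≠ 0 → ∃ j₁, ¬ Ht (a j₁ / a j₀) (Q ^ ε₁)

/-- PT: the theorem on the penultimate minimum. -/
def T_PT : Prop := ∀ (L : Type u) [Field L] [NumberField L] (ι : Type) [Fintype ι]
  [DecidableEq ι] (B : InfinitePlace L → Matrix ι ι ℤ) (c : InfinitePlace L → ι → ℝ) (δ : ℝ),
  (∀ v, (B v).det ≠ 0) → (∑ v, ∑ i, (v.mult : ℝ) * c v i = 0) → 0 < δ →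
  ∃ (Q₀ : ℝ) (V₀ : Submodule L (ι → L)), ∀ Q : ℝ, Q₀ ≤ Q →
  ∀ V : Submodule L (ι → L), Module.finrank L V + 1 = Fintype.card ι →
  V = Submodule.span L (SQ B c δ Q) → V = V₀

/-! ## geometry of numbers -/

/-- weights normalised to product `1` -/
def NW {L : Type u} [Field L] [NumberField L] {ι : Type} [Fintype ι]
    (w : InfinitePlace L → ι → ℝ) : Prop :=
  (∀ v i, 0 < w v i) ∧ ∏ v : InfinitePlace L, ∏ i, w v i ^ v.mult = 1

/-- the norm attached to the weights -/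
noncomputable def Nw {L : Type u} [Field L] [NumberField L] {ι : Type} [Fintype ι]
    (B : InfinitePlace L → Matrix ι ι ℤ) (w : InfinitePlace L → ι → ℝ) (x : ι → L) : ℝ :=
  ∑ v : InfinitePlace L, ∑ i, ‖lf B v i x‖ / w v i

/-- a system of vectors realising the successive minima -/
structure MinSys {L : Type u} [Field L] [NumberField L] {ι : Type} [Fintype ι]
    (B : InfinitePlace L → Matrix ι ι ℤ) (w : InfinitePlace L → ι → ℝ)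
    (x : Fin (Fintype.card ι) → ι → L) : Prop where
  int : ∀ a j, IsIntegral ℤ (x a j)
  li : LinearIndependent L x
  mono : Monotone fun a => Nw B w (x a)
  min : ∀ y : ι → L, (∀ j, IsIntegral ℤ (y j)) → ∀ a, Nw B w y < Nw B w (x a) →
    y ∈ Submodule.span L (x '' {b | b < a})

/-- M1: the determinant lower bound. -/
def T_M1 : Prop := ∀ (L : Type u) [Field L] [NumberField L] (ι : Type) [Fintype ι]
  [DecidableEq ι] (B : InfinitePlace L → Matrix ι ι ℤ) (w : InfinitePlace L → ι → ℝ)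
  (x : ι → ι → L) (μ : ι → ℝ), (∀ v, (B v).det ≠ 0) → NW w → (∀ a j, IsIntegral ℤ (x a j)) →
  LinearIndependent L x → (∀ a, 0 ≤ μ a) → (∀ a v i, ‖lf B v i (x a)‖ ≤ μ a * w v i) →
  1 ≤ (Fintype.card ι).factorial * ∏ a, μ a

/-- MK1: Minkowski's first theorem (pigeonhole). -/
def T_MK1 : Prop := ∀ (L : Type u) [Field L] [NumberField L] (ι : Type) [Fintype ι]
  [DecidableEq ι] [Nonempty ι] (B : InfinitePlace L → Matrix ι ι ℤ), (∀ v, (B v).det ≠ 0) →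
  ∃ D : ℝ, 0 < D ∧ ∀ w : InfinitePlace L → ι → ℝ, NW w →
  ∃ x : ι → L, x ≠ 0 ∧ (∀ j, IsIntegral ℤ (x j)) ∧ ∀ v i, ‖lf B v i x‖ ≤ D * w v i

/-- MIN: existence of minimal systems. -/
def T_MIN : Prop := ∀ (L : Type u) [Field L] [NumberField L] (ι : Type) [Fintype ι]
  [DecidableEq ι] (B : InfinitePlace L → Matrix ι ι ℤ) (w : InfinitePlace L → ι → ℝ),
  (∀ v, (B v).det ≠ 0) → (∀ v i, 0 < w v i) → ∃ x, MinSys B w x

/-- PIV: the pivot lemma. -/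
def T_PIV : Prop := ∀ n : ℕ, ∃ D : ℝ, 0 < D ∧ ∀ (ι : Type) [Fintype ι] [DecidableEq ι],
  Fintype.card ι = n → ∀ A : Matrix ι (Fin n) ℂ, Function.Injective A.mulVec →
  ∃ π : ι ≃ Fin n, ∀ (a : Fin n) (t : Fin n → ℂ), (∀ b, a < b → t b = 0) →
    ∑ i, ‖A.mulVec t i‖ ≤ D * ∑ i ∈ Finset.univ.filter (fun i => π i ≤ a), ‖A.mulVec t i‖

/-- DAV: Davenport's lemma. -/
def T_DAV : Prop := ∀ n : ℕ, ∃ d : ℝ, 0 < d ∧ ∀ (L : Type u) [Field L] [NumberField L]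
  (ι : Type) [Fintype ι] [DecidableEq ι], Fintype.card ι = n →
  ∀ (B : InfinitePlace L → Matrix ι ι ℤ) (w : InfinitePlace L → ι → ℝ), (∀ v, (B v).det ≠ 0) →
  (∀ v i, 0 < w v i) → ∀ (x : Fin (Fintype.card ι) → ι → L), MinSys B w x →
  ∀ ρ : Fin (Fintype.card ι) → ℝ, (∀ a, 0 < ρ a) → Antitone ρ →
  (Monotone fun a => ρ a * Nw B w (x a)) →
  ∃ π : InfinitePlace L → (ι ≃ Fin (Fintype.card ι)), ∀ y : ι → L, (∀ j, IsIntegral ℤ (y j)) →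
    ∀ a, y ∉ Submodule.span L (x '' {b | b < a}) →
      d * ρ a * Nw B w (x a) ≤ Nw B (fun v i => w v i / ρ (π v i)) y

/-- MII: Minkowski's second theorem, upper bound. -/
def T_MII : Prop := ∀ (L : Type u) [Field L] [NumberField L] (ι : Type) [Fintype ι]
  [DecidableEq ι] [Nonempty ι] (B : InfinitePlace L → Matrix ι ι ℤ), (∀ v, (B v).det ≠ 0) →
  ∃ D : ℝ, 0 < D ∧ ∀ w : InfinitePlace L → ι → ℝ, NW w →
  ∀ x : Fin (Fintype.card ι) → ι → L, MinSys B w x → ∏ a, Nw B w (x a) ≤ D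

/-- PTW: the penultimate minimum with variable weights. -/
def T_PTW : Prop := ∀ (L : Type u) [Field L] [NumberField L] (ι : Type) [Fintype ι]
  [DecidableEq ι] (B : InfinitePlace L → Matrix ι ι ℤ) (E δ : ℝ), (∀ v, (B v).det ≠ 0) →
  0 < δ → ∃ (Q₀ : ℝ) (𝒱 : Set (Submodule L (ι → L))), 𝒱.Finite ∧ ∀ Q : ℝ, Q₀ ≤ Q →
  ∀ w : InfinitePlace L → ι → ℝ, NW w → (∀ v i, Q ^ (-E) ≤ w v i ∧ w v i ≤ Q ^ E) →
  ∀ V : Submodule L (ι → L), Module.finrank L V + 1 = Fintype.card ι →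
  V = Submodule.span L (Sm B w (Q ^ (-δ))) → V ∈ 𝒱

/-! ## exterior powers -/

/-- `p`-element subsets of `Fin n` -/
abbrev Sub (n p : ℕ) : Type := {s : Finset (Fin n) // s.card = p}

/-- the compound matrix -/
noncomputable def cmp {n : ℕ} (p : ℕ) {R : Type*} [CommRing R] (A : Matrix (Fin n) (Fin n) R) :
    Matrix (Sub n p) (Sub n p) R :=
  fun s t => (A.submatrix (s.1.orderEmbOfFin s.2) (t.1.orderEmbOfFin t.2)).det

/-- EXT: exterior powers. -/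
def T_EXT : Prop :=
  -- Cauchy-Binet
  (∀ (n p : ℕ) (R : Type u) [CommRing R] (A B : Matrix (Fin n) (Fin n) R),
    cmp p (A * B) = cmp p A * cmp p B) ∧
  (∀ (n p : ℕ) (R : Type u) [CommRing R], cmp p (1 : Matrix (Fin n) (Fin n) R) = 1) ∧
  -- the span of all `x_s`, `s ≠ s₀`, determines the span of `x_a`, `a ∉ s₀`
  (∀ (n p : ℕ), 1 ≤ p → ∀ (L : Type u) [Field L] (s₀ : Sub n p),
    ∃ F : Submodule L (Sub n p → L) → Submodule L (Fin n → L),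
    ∀ x : Fin n → Fin n → L, LinearIndependent L x →
      F (Submodule.span L {y | ∃ s, s ≠ s₀ ∧ y = cmp p (Matrix.of x) s}) =
        Submodule.span L (x '' {a | a ∉ s₀.1}))

/-- RED: reduction of a gap between two consecutive minima to the penultimate minimum. -/
def T_RED : Prop := ∀ (L : Type u) [Field L] [NumberField L] (n k : ℕ), 1 ≤ k → k < n →
  ∀ (B : InfinitePlace L → Matrix (Fin n) (Fin n) ℤ), (∀ v, (B v).det ≠ 0) →
  ∀ E : ℝ, 0 ≤ E →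
  ∃ (E' D τ G₀ : ℝ) (F : Submodule L (Sub n (n - k) → L) → Submodule L (Fin n → L)),
  0 < D ∧ 0 < τ ∧ 0 < G₀ ∧
  ∀ (w : InfinitePlace L → Fin n → ℝ) (x : Fin (Fintype.card (Fin n)) → Fin n → L) (Q : ℝ),
  2 ≤ Q → NW w → (∀ v i, Q ^ (-E) ≤ w v i ∧ w v i ≤ Q ^ E) → MinSys B w x →
  ∀ (a b : Fin (Fintype.card (Fin n))), (a : ℕ) + 1 = k → (b : ℕ) = k → ∀ G : ℝ, G₀ ≤ G →
  G * Nw B w (x a) ≤ Nw B w (x b) →
  ∃ w' : InfinitePlace L → Sub n (n - k) → ℝ, NW w' ∧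
    (∀ v s, Q ^ (-E') ≤ w' v s ∧ w' v s ≤ Q ^ E') ∧
    ∃ V : Submodule L (Sub n (n - k) → L), Module.finrank L V + 1 = Fintype.card (Sub n (n - k)) ∧
      V = Submodule.span L (Sm (fun v => cmp (n - k) (B v)) w' (D * G ^ (-τ))) ∧
      F V = Submodule.span L (x '' {c | (c : ℕ) < k})

/-- PST: the parametric subspace theorem. -/
def T_PST : Prop := ∀ (L : Type u) [Field L] [NumberField L] (n : ℕ), 1 ≤ n →
  ∀ (B : InfinitePlace L → Matrix (Fin n) (Fin n) ℤ) (E δ : ℝ), (∀ v, (B v).det ≠ 0) → 0 < δ →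
  ∃ (Q₀ : ℝ) (𝒱 : Set (Submodule L (Fin n → L))), 𝒱.Finite ∧ (∀ V ∈ 𝒱, V ≠ ⊤) ∧
  ∀ Q : ℝ, Q₀ ≤ Q → ∀ w : InfinitePlace L → Fin n → ℝ, NW w →
  (∀ v i, Q ^ (-E) ≤ w v i ∧ w v i ≤ Q ^ E) → ∃ V ∈ 𝒱, Sm B w (Q ^ (-δ)) ⊆ V

/-! ## unit equations -/

/-- UNI: balancing by a unit. -/
def T_UNI : Prop := ∀ (L : Type u) [Field L] [NumberField L], ∃ D : ℝ, 0 < D ∧
  ∀ t : InfinitePlace L → ℝ, (∀ v, 0 < t v) → ∃ (u : (𝓞 L)ˣ) (H : ℝ), 0 < H ∧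
    H ^ Module.finrank ℚ L = ∏ v, t v ^ v.mult ∧
    ∀ v : InfinitePlace L, D⁻¹ * H ≤ v (u : L) * t v ∧ v (u : L) * t v ≤ D * H

/-- HYP: almost-unit equations, solutions lie in finitely many hyperplanes. -/
def T_HYP : Prop := ∀ (L : Type u) [Field L] [NumberField L] (n : ℕ) (A : ℝ), 2 ≤ n →
  ∃ 𝒜 : Set (Fin n → L), 𝒜.Finite ∧ (0 : Fin n → L) ∉ 𝒜 ∧ ∀ y : Fin (n + 1) → L,
    (∀ i, IsIntegral ℤ (y i)) → (∀ i, y i ≠ 0) → (∀ i, |((Algebra.norm ℚ (y i) : ℚ) : ℝ)| ≤ A) →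
    ∑ i, y i = 0 → ∃ a ∈ 𝒜, ∑ i, a i * y i.succ = 0

/-- UEQ: finiteness for almost-unit equations. -/
def T_UEQ : Prop := ∀ (L : Type u) [Field L] [NumberField L] (κ : Type) [Fintype κ] (A : ℝ),
  ∃ ℛ : Set L, ℛ.Finite ∧ ∀ y : κ → L,
    (∀ i, IsIntegral ℤ (y i)) → (∀ i, y i ≠ 0) → (∀ i, |((Algebra.norm ℚ (y i) : ℚ) : ℝ)| ≤ A) →
    ∑ i, y i = 0 → (∀ S : Finset κ, S.Nonempty → S ≠ Finset.univ → ∑ i ∈ S, y i ≠ 0) →
    ∀ i j, y i / y j ∈ ℛ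

/-! ## the application -/

/-- the positive integers which are sums of `m` units of `K` -/
def sumUnits (K : Type u) [Field K] [NumberField K] (m : ℕ) : Set ℕ :=
  {n | 0 < n ∧ ∃ u : Fin m → (𝓞 K)ˣ, (n : 𝓞 K) = ∑ i, (u i : 𝓞 K)}

/-- `F` is imaginary quadratic -/
def ImagQuad {K : Type u} [Field K] [NumberField K] (F : IntermediateField ℚ K) : Prop :=
  Module.finrank ℚ F = 2 ∧ ∀ v : InfinitePlace F, v.IsComplex

/-- a subfield `F` of `K` with `2 ≤ [F : ℚ] ≤ m`, not imaginary quadratic, all of whose conjugates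
lie in `K` -/
def Good (K : Type u) [Field K] [NumberField K] (m : ℕ) (F : IntermediateField ℚ K) : Prop :=
  2 ≤ Module.finrank ℚ F ∧ Module.finrank ℚ F ≤ m ∧ ¬ ImagQuad F ∧
    ∀ x ∈ F, ((minpoly ℚ x).map (algebraMap ℚ K)).Splits

def T_ONLY : Prop := ∀ (K : Type u) [Field K] [NumberField K] (m : ℕ),
  (sumUnits K m).Infinite → ∃ F : IntermediateField ℚ K, Good K m F

def T_IF : Prop := ∀ (K : Type u) [Field K] [NumberField K] (m : ℕ)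
  (F : IntermediateField ℚ K), Good K m F → (sumUnits K m).Infinite

end Pool.Agent.H21.UE
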