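import Mathlib
import Pool.Agent.H21.UE.Defs

/-!
# Weighted l1 norms of polynomials
-/

open MvPolynomial

namespace Pool.Agent.H21.UE

section wn

variable {κ κ' : Type*} [Fintype κ] [Fintype κ'] {ϱ ϱ' : κ → ℝ}

theorem wn_nonneg (h : ∀ i, 0 ≤ ϱ i) (p : MvPolynomial κ ℂ) : 0 ≤ wn ϱ p :=
  Finset.sum_nonneg fun J _ =>
    mul_nonneg (norm_nonneg _) (Finset.prod_nonneg fun i _ => pow_nonneg (h i) _)

theorem wn_eq_sum_of_subset (ϱ : κ → ℝ) (p : MvPolynomial κ ℂ) (s : Finset (κ →₀ ℕ))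
    (hs : p.support ⊆ s) : wn ϱ p = ∑ J ∈ s, ‖p.coeff J‖ * ∏ i, ϱ i ^ J i := by
  refine Finset.sum_subset hs fun J _ hJ => ?_
  rw [notMem_support_iff.1 hJ, norm_zero, zero_mul]

@[simp] theorem wn_zero (ϱ : κ → ℝ) : wn ϱ (0 : MvPolynomial κ ℂ) = 0 := by
  simp [wn]

theorem wn_monomial (ϱ : κ → ℝ) (J : κ →₀ ℕ) (a : ℂ) :
    wn ϱ (monomial J a) = ‖a‖ * ∏ i, ϱ i ^ J i := by
  classical
  rw [wn_eq_sum_of_subset ϱ _ {J} support_monomial_subset, Finset.sum_singleton, coeff_monomial,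
    if_pos rfl]

@[simp] theorem wn_C (ϱ : κ → ℝ) (a : ℂ) : wn ϱ (C a) = ‖a‖ := by
  rw [C_apply, wn_monomial]
  simp

@[simp] theorem wn_X (ϱ : κ → ℝ) (i : κ) : wn ϱ (X i : MvPolynomial κ ℂ) = ϱ i := by
  classical
  rw [X, wn_monomial, norm_one, one_mul, Finset.prod_eq_single i]
  · simp
  · intro j _ hj
    rw [Finsupp.single_apply, if_neg (Ne.symm hj), pow_zero]
  · intro h
    exact absurd (Finset.mem_univ i) h

@[simp] theorem wn_one (ϱ : κ → ℝ) : wn ϱ (1 : MvPolynomial κ ℂ) = 1 := by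
  rw [← C_1, wn_C, norm_one]

theorem wn_add_le (h : ∀ i, 0 ≤ ϱ i) (p q : MvPolynomial κ ℂ) :
    wn ϱ (p + q) ≤ wn ϱ p + wn ϱ q := by
  classical
  rw [wn_eq_sum_of_subset ϱ (p + q) (p.support ∪ q.support) support_add,
    wn_eq_sum_of_subset ϱ p (p.support ∪ q.support) Finset.subset_union_left,
    wn_eq_sum_of_subset ϱ q (p.support ∪ q.support) Finset.subset_union_right,
    ← Finset.sum_add_distrib]
  refine Finset.sum_le_sum fun J _ => ?_
  rw [coeff_add, ← add_mul]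
  exact mul_le_mul_of_nonneg_right (norm_add_le _ _)
    (Finset.prod_nonneg fun i _ => pow_nonneg (h i) _)

theorem wn_sum_le (h : ∀ i, 0 ≤ ϱ i) {α : Type*} (s : Finset α) (f : α → MvPolynomial κ ℂ) :
    wn ϱ (∑ a ∈ s, f a) ≤ ∑ a ∈ s, wn ϱ (f a) := by
  classical
  induction s using Finset.induction_on with
  | empty => simp
  | insert a s ha ih =>
    rw [Finset.sum_insert ha, Finset.sum_insert ha]
    exact (wn_add_le h _ _).trans (add_le_add_right ih _)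

theorem wn_mul_le (h : ∀ i, 0 ≤ ϱ i) (p q : MvPolynomial κ ℂ) :
    wn ϱ (p * q) ≤ wn ϱ p * wn ϱ q := by
  classical
  have e : p * q = ∑ J ∈ p.support, ∑ K ∈ q.support,
      monomial (J + K) (p.coeff J * q.coeff K) := by
    conv_lhs => rw [p.as_sum, q.as_sum]
    rw [Finset.sum_mul_sum]
    refine Finset.sum_congr rfl fun J _ => Finset.sum_congr rfl fun K _ => ?_
    rw [monomial_mul]
  rw [e]
  refine (wn_sum_le h _ _).trans ?_
  rw [wn, wn, Finset.sum_mul_sum]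
  refine Finset.sum_le_sum fun J _ => (wn_sum_le h _ _).trans ?_
  refine Finset.sum_le_sum fun K _ => ?_
  rw [wn_monomial, norm_mul]
  have : ∏ i, ϱ i ^ (J + K) i = (∏ i, ϱ i ^ J i) * ∏ i, ϱ i ^ K i := by
    rw [← Finset.prod_mul_distrib]
    refine Finset.prod_congr rfl fun i _ => ?_
    rw [Finsupp.add_apply, pow_add]
  rw [this]
  exact le_of_eq (by ring)

theorem wn_pow_le (h : ∀ i, 0 ≤ ϱ i) (p : MvPolynomial κ ℂ) (k : ℕ) :
    wn ϱ (p ^ k) ≤ wn ϱ p ^ k := by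
  induction k with
  | zero => simp
  | succ k ih =>
    rw [pow_succ, pow_succ]
    exact (wn_mul_le h _ _).trans (mul_le_mul_of_nonneg_right ih (wn_nonneg h p))

theorem wn_prod_le (h : ∀ i, 0 ≤ ϱ i) {α : Type*} (s : Finset α) (f : α → MvPolynomial κ ℂ) :
    wn ϱ (∏ a ∈ s, f a) ≤ ∏ a ∈ s, wn ϱ (f a) := by
  classical
  induction s using Finset.induction_on with
  | empty => simp
  | insert a s ha ih =>
    rw [Finset.prod_insert ha, Finset.prod_insert ha]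
    exact (wn_mul_le h _ _).trans (mul_le_mul_of_nonneg_left ih (wn_nonneg h _))

theorem coeff_le_wn (h : ∀ i, 0 ≤ ϱ i) (p : MvPolynomial κ ℂ) (J : κ →₀ ℕ) :
    ‖p.coeff J‖ * ∏ i, ϱ i ^ J i ≤ wn ϱ p := by
  by_cases hJ : J ∈ p.support
  · exact Finset.single_le_sum (f := fun J => ‖p.coeff J‖ * ∏ i, ϱ i ^ J i)
      (fun J _ => mul_nonneg (norm_nonneg _) (Finset.prod_nonneg fun i _ => pow_nonneg (h i) _)) hJ
  · rw [notMem_support_iff.1 hJ, norm_zero, zero_mul]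
    exact wn_nonneg h p

theorem wn_mono (h : ∀ i, 0 ≤ ϱ i) (h' : ∀ i, ϱ i ≤ ϱ' i) (p : MvPolynomial κ ℂ) :
    wn ϱ p ≤ wn ϱ' p :=
  Finset.sum_le_sum fun J _ => mul_le_mul_of_nonneg_left
    (Finset.prod_le_prod (fun i _ => pow_nonneg (h i) _)
      fun i _ => pow_le_pow_left₀ (h i) (h' i) _) (norm_nonneg _)

theorem wn_neg (ϱ : κ → ℝ) (p : MvPolynomial κ ℂ) : wn ϱ (-p) = wn ϱ p := by
  rw [wn, wn, support_neg]
  refine Finset.sum_congr rfl fun J _ => ?_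
  rw [coeff_neg, norm_neg]

theorem wn_C_mul_le (h : ∀ i, 0 ≤ ϱ i) (a : ℂ) (p : MvPolynomial κ ℂ) :
    wn ϱ (C a * p) ≤ ‖a‖ * wn ϱ p := by
  simpa using wn_mul_le h (C a) p

theorem wn_aeval_le {ϱ : κ' → ℝ} (h : ∀ i, 0 ≤ ϱ i) (f : κ → MvPolynomial κ' ℂ)
    (p : MvPolynomial κ ℂ) : wn ϱ (aeval f p) ≤ wn (fun i => wn ϱ (f i)) p := by
  rw [aeval_def, eval₂_eq']
  refine (wn_sum_le h _ _).trans (Finset.sum_le_sum fun J _ => ?_)
  rw [← C_eq_algebraMap]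
  refine (wn_C_mul_le h _ _).trans (mul_le_mul_of_nonneg_left ?_ (norm_nonneg _))
  refine (wn_prod_le h _ _).trans (Finset.prod_le_prod (fun i _ => wn_nonneg h _) fun i _ => ?_)
  exact wn_pow_le h _ _

end wn

section l1

variable {κ κ' : Type*} [Fintype κ] [Fintype κ']

theorem l1_nonneg {κ : Type*} (p : MvPolynomial κ ℤ) : 0 ≤ l1 p :=
  Finset.sum_nonneg fun _ _ => abs_nonneg _

theorem l1_eq_wn (p : MvPolynomial κ ℤ) :
    l1 p = wn (fun _ => 1) (map (Int.castRingHom ℂ) p) := by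
  have hs : (map (Int.castRingHom ℂ) p).support = p.support :=
    support_map_of_injective p (RingHom.injective_int _)
  rw [l1, wn, hs]
  refine Finset.sum_congr rfl fun J _ => ?_
  simp [coeff_map]

@[simp] theorem l1_zero {κ : Type*} : l1 (0 : MvPolynomial κ ℤ) = 0 := by simp [l1]

theorem l1_add_le (p q : MvPolynomial κ ℤ) : l1 (p + q) ≤ l1 p + l1 q := by
  rw [l1_eq_wn, l1_eq_wn, l1_eq_wn, map_add]
  exact wn_add_le (fun _ => zero_le_one) _ _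

theorem l1_neg (p : MvPolynomial κ ℤ) : l1 (-p) = l1 p := by
  rw [l1_eq_wn, l1_eq_wn, map_neg, wn_neg]

theorem l1_sum_le {α : Type*} (s : Finset α) (f : α → MvPolynomial κ ℤ) :
    l1 (∑ a ∈ s, f a) ≤ ∑ a ∈ s, l1 (f a) := by
  simp_rw [l1_eq_wn, map_sum]
  exact wn_sum_le (fun _ => zero_le_one) _ _

theorem l1_mul_le (p q : MvPolynomial κ ℤ) : l1 (p * q) ≤ l1 p * l1 q := by
  rw [l1_eq_wn, l1_eq_wn, l1_eq_wn, map_mul]
  exact wn_mul_le (fun _ => zero_le_one) _ _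

theorem l1_pow_le (p : MvPolynomial κ ℤ) (k : ℕ) : l1 (p ^ k) ≤ l1 p ^ k := by
  rw [l1_eq_wn, l1_eq_wn, map_pow]
  exact wn_pow_le (fun _ => zero_le_one) _ _

theorem l1_prod_le {α : Type*} (s : Finset α) (f : α → MvPolynomial κ ℤ) :
    l1 (∏ a ∈ s, f a) ≤ ∏ a ∈ s, l1 (f a) := by
  simp_rw [l1_eq_wn, map_prod]
  exact wn_prod_le (fun _ => zero_le_one) _ _

@[simp] theorem l1_monomial (J : κ →₀ ℕ) (a : ℤ) : l1 (monomial J a) = |(a : ℝ)| := by
  rw [l1_eq_wn, map_monomial, wn_monomial]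
  simp

@[simp] theorem l1_C (a : ℤ) : l1 (C a : MvPolynomial κ ℤ) = |(a : ℝ)| := by
  rw [C_apply, l1_monomial]

@[simp] theorem l1_X (i : κ) : l1 (X i : MvPolynomial κ ℤ) = 1 := by
  rw [X, l1_monomial]
  simp

theorem abs_coeff_le_l1 {κ : Type*} (p : MvPolynomial κ ℤ) (J : κ →₀ ℕ) :
    |((p.coeff J : ℤ) : ℝ)| ≤ l1 p := by
  by_cases hJ : J ∈ p.support
  · exact Finset.single_le_sum (f := fun J => |((p.coeff J : ℤ) : ℝ)|)
      (fun J _ => abs_nonneg _) hJ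
  · rw [notMem_support_iff.1 hJ]
    simpa using l1_nonneg p

theorem one_le_l1 {κ : Type*} {p : MvPolynomial κ ℤ} (hp : p ≠ 0) : 1 ≤ l1 p := by
  obtain ⟨J, hJ⟩ := ne_zero_iff.1 hp
  refine le_trans ?_ (abs_coeff_le_l1 p J)
  exact_mod_cast Int.one_le_abs hJ

theorem l1_le_card_mul {κ : Type*} (p : MvPolynomial κ ℤ) (s : Finset (κ →₀ ℕ))
    (hs : p.support ⊆ s) (b : ℝ) (hb : ∀ J ∈ s, |((p.coeff J : ℤ) : ℝ)| ≤ b) :
    l1 p ≤ s.card * b := by
  have : l1 p = ∑ J ∈ s, |((p.coeff J : ℤ) : ℝ)| := by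
    refine Finset.sum_subset hs fun J _ hJ => ?_
    rw [notMem_support_iff.1 hJ]
    simp
  rw [this, ← nsmul_eq_mul]
  exact Finset.sum_le_card_nsmul _ _ _ hb

/-- substitution -/
theorem l1_aeval_le (f : κ → MvPolynomial κ' ℤ) (b : κ → ℝ) (hb : ∀ i, l1 (f i) ≤ b i)
    (p : MvPolynomial κ ℤ) :
    l1 (aeval f p) ≤ ∑ J ∈ p.support, |((p.coeff J : ℤ) : ℝ)| * ∏ i, b i ^ J i := by
  rw [aeval_def, eval₂_eq']
  refine (l1_sum_le _ _).trans (Finset.sum_le_sum fun J _ => ?_)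
  refine (l1_mul_le _ _).trans ?_
  have h1 : l1 ((algebraMap ℤ (MvPolynomial κ' ℤ)) (p.coeff J)) = |((p.coeff J : ℤ) : ℝ)| := by
    rw [← C_eq_algebraMap] 
    exact l1_C _
  rw [h1]
  refine mul_le_mul_of_nonneg_left ?_ (abs_nonneg _)
  refine (l1_prod_le _ _).trans (Finset.prod_le_prod (fun i _ => l1_nonneg _) fun i _ => ?_)
  exact (l1_pow_le _ _).trans (pow_le_pow_left₀ (l1_nonneg _) (hb i) _)

theorem l1_det_le {k : ℕ} (A : Matrix (Fin k) (Fin k) (MvPolynomial κ ℤ)) (b : ℝ)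
    (hb : ∀ i j, l1 (A i j) ≤ b) : l1 A.det ≤ k.factorial * b ^ k := by
  rw [Matrix.det_apply]
  refine (l1_sum_le _ _).trans ?_
  have h : ∀ σ ∈ (Finset.univ : Finset (Equiv.Perm (Fin k))),
      l1 (Equiv.Perm.sign σ • ∏ i, A (σ i) i) ≤ b ^ k := by
    intro σ _
    have h1 : l1 (Equiv.Perm.sign σ • ∏ i, A (σ i) i) = l1 (∏ i, A (σ i) i) := by
      rcases Int.units_eq_one_or (Equiv.Perm.sign σ) with h | h
      · rw [h, one_smul]
      · rw [h, Units.neg_smul, one_smul, l1_neg]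
    rw [h1]
    refine (l1_prod_le _ _).trans ?_
    calc ∏ i : Fin k, l1 (A (σ i) i) ≤ ∏ _i : Fin k, b :=
          Finset.prod_le_prod (fun i _ => l1_nonneg _) fun i _ => hb _ _
      _ = b ^ k := by rw [Finset.prod_const, Finset.card_univ, Fintype.card_fin]
  refine (Finset.sum_le_card_nsmul _ _ _ h).trans ?_
  rw [Finset.card_univ, Fintype.card_perm, Fintype.card_fin, nsmul_eq_mul]

end l1

end Pool.Agent.H21.UE
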