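import Mathlib
import Pool.Agent.H21.UE.Defs

/-!
# Module M1: the determinant lower bound
-/

open MvPolynomial NumberField

namespace Pool.Agent.H21.UE

universe u

theorem norm_embedding {L : Type u} [Field L] (v : InfinitePlace L) (x : L) :
    ‖v.embedding x‖ = v x := by
  conv_rhs => rw [← v.mk_embedding]
  rfl

/-- a nonzero algebraic integer has norm at least one -/
theorem one_le_prod_place {L : Type u} [Field L] [NumberField L] {x : L} (hx : IsIntegral ℤ x)
    (h0 : x ≠ 0) : 1 ≤ ∏ v : InfinitePlace L, v x ^ v.mult := by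
  rw [InfinitePlace.prod_eq_abs_norm]
  have h1 : IsIntegral ℤ (Algebra.norm ℚ x) := Algebra.isIntegral_norm ℚ hx
  obtain ⟨z, hz⟩ := IsIntegrallyClosed.isIntegral_iff.1 h1
  have h2 : z ≠ 0 := by
    rintro rfl
    rw [map_zero, eq_comm, Algebra.norm_eq_zero_iff] at hz
    exact h0 hz
  rw [← hz]
  have h3 : (1 : ℤ) ≤ |z| := Int.one_le_abs h2
  have h4 : ((1 : ℤ) : ℝ) ≤ ((|z| : ℤ) : ℝ) := by exact_mod_cast h3
  simpa using h4

/-- the matrix of the values of the linear forms -/
theorem lf_matrix {L : Type u} [Field L] [NumberField L] {ι κ : Type} [Fintype ι]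
    (B : InfinitePlace L → Matrix ι ι ℤ) (v : InfinitePlace L) (x : κ → ι → L) :
    (Matrix.of fun i a => lf B v i (x a)) =
      (B v).map (Int.castRingHom ℂ) * ((Matrix.of x).transpose.map v.embedding) := by
  ext i a
  simp [Matrix.mul_apply, lf]

theorem lf_det {L : Type u} [Field L] [NumberField L] {ι : Type} [Fintype ι] [DecidableEq ι]
    (B : InfinitePlace L → Matrix ι ι ℤ) (v : InfinitePlace L) (x : ι → ι → L) :
    (Matrix.of fun i a => lf B v i (x a)).det =
      ((B v).det : ℂ) * v.embedding (Matrix.of x).det := by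
  rw [lf_matrix, Matrix.det_mul]
  congr 1
  · have := (RingHom.map_det (Int.castRingHom ℂ) (B v)).symm
    simpa using this
  · have := (RingHom.map_det v.embedding (Matrix.of x).transpose).symm
    rw [Matrix.det_transpose] at this
    simpa using this

theorem M1 : T_M1.{u} := by
  intro L _ _ ι _ _ B w x μ hB hw hint hli hμ hle
  have hdet0 : (Matrix.of x).det ≠ 0 := by
    have h1 : LinearIndependent L (Matrix.of x).row := hli
    exact (Matrix.isUnit_iff_isUnit_det _).1
      (Matrix.linearIndependent_rows_iff_isUnit.1 h1) |>.ne_zero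
  have hdetint : IsIntegral ℤ (Matrix.of x).det := IsIntegral.det fun a j => hint a j
  have key : ∀ v : InfinitePlace L, v (Matrix.of x).det ≤
      (Fintype.card ι).factorial * (∏ a, μ a) * ∏ i, w v i := by
    intro v
    have h1 : v (Matrix.of x).det ≤ ‖(Matrix.of fun i a => lf B v i (x a)).det‖ := by
      rw [lf_det, norm_mul, norm_embedding]
      have h2 : (1 : ℝ) ≤ ‖((B v).det : ℂ)‖ := by
        rw [Complex.norm_intCast]
        exact_mod_cast Int.one_le_abs (hB v)
      exact le_mul_of_one_le_left (v.1.nonneg _) h2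
    refine h1.trans ?_
    rw [Matrix.det_apply]
    refine (norm_sum_le _ _).trans ?_
    have h3 : ∀ σ ∈ (Finset.univ : Finset (Equiv.Perm ι)),
        ‖Equiv.Perm.sign σ • ∏ a, (Matrix.of fun i a => lf B v i (x a)) (σ a) a‖ ≤
          (∏ a, μ a) * ∏ i, w v i := by
      intro σ _
      have h4 : ‖Equiv.Perm.sign σ • ∏ a, (Matrix.of fun i a => lf B v i (x a)) (σ a) a‖ =
          ∏ a, ‖lf B v (σ a) (x a)‖ := by
        rcases Int.units_eq_one_or (Equiv.Perm.sign σ) with h | h
        · rw [h, one_smul, norm_prod]; rfl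
        · rw [h, Units.neg_smul, one_smul, norm_neg, norm_prod]; rfl
      rw [h4]
      calc ∏ a, ‖lf B v (σ a) (x a)‖ ≤ ∏ a, (μ a * w v (σ a)) :=
            Finset.prod_le_prod (fun a _ => norm_nonneg _) fun a _ => hle a v (σ a)
        _ = (∏ a, μ a) * ∏ i, w v i := by
            rw [Finset.prod_mul_distrib]
            congr 1
            exact Equiv.prod_comp σ (fun i => w v i)
    refine (Finset.sum_le_card_nsmul _ _ _ h3).trans ?_
    rw [Finset.card_univ, Fintype.card_perm, nsmul_eq_mul, mul_assoc]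
  have hM : 0 ≤ ∏ a, μ a := Finset.prod_nonneg fun a _ => hμ a
  set M : ℝ := (Fintype.card ι).factorial * ∏ a, μ a with hMdef
  have hM0 : 0 ≤ M := mul_nonneg (Nat.cast_nonneg _) hM
  have h5 : 1 ≤ M ^ Module.finrank ℚ L := by
    calc (1 : ℝ) ≤ ∏ v : InfinitePlace L, v (Matrix.of x).det ^ v.mult :=
          one_le_prod_place hdetint hdet0
      _ ≤ ∏ v : InfinitePlace L, (M * ∏ i, w v i) ^ v.mult :=
          Finset.prod_le_prod (fun v _ => pow_nonneg (v.1.nonneg _) _)
            fun v _ => pow_le_pow_left₀ (v.1.nonneg _) (key v) _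
      _ = M ^ Module.finrank ℚ L := by
          simp_rw [mul_pow, Finset.prod_mul_distrib, ← Finset.prod_pow]
          rw [hw.2, mul_one, Finset.prod_pow_eq_pow_sum, InfinitePlace.sum_mult_eq]
  by_contra hlt
  rw [not_le] at hlt
  have h6 : Module.finrank ℚ L ≠ 0 := Module.finrank_pos.ne'
  exact absurd h5 (not_le.2 (pow_lt_one₀ hM0 hlt h6))

end Pool.Agent.H21.UE
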