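import Mathlib
import Pool.Agent.H21.UE.Defs
import Pool.Agent.H21.UE.M1

/-!
# Module DAV: Davenport's lemma
-/

open MvPolynomial NumberField

namespace Pool.Agent.H21.UE

universe u

theorem lf_sum {L : Type u} [Field L] [NumberField L] {ι κ : Type} [Fintype ι] [Fintype κ]
    (B : InfinitePlace L → Matrix ι ι ℤ) (v : InfinitePlace L) (i : ι) (t : κ → L)
    (x : κ → ι → L) :
    lf B v i (∑ a, t a • x a) = ∑ a, lf B v i (x a) * v.embedding (t a) := by
  simp only [lf, Finset.sum_apply, Pi.smul_apply, smul_eq_mul, map_sum, map_mul,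
    Finset.mul_sum, Finset.sum_mul]
  rw [Finset.sum_comm]
  refine Finset.sum_congr rfl fun a _ => Finset.sum_congr rfl fun j _ => by ring

theorem lf_mulVec_injective {L : Type u} [Field L] [NumberField L] {ι : Type} [Fintype ι]
    [DecidableEq ι] (B : InfinitePlace L → Matrix ι ι ℤ) (hB : ∀ v, (B v).det ≠ 0)
    (v : InfinitePlace L) (x : Fin (Fintype.card ι) → ι → L) (hx : LinearIndependent L x) :
    Function.Injective (Matrix.of fun i a => lf B v i (x a)).mulVec := by
  let e : ι ≃ Fin (Fintype.card ι) := Fintype.equivFin ι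
  have hx' : LinearIndependent L (x ∘ e) := hx.comp _ e.injective
  have hdet0 : (Matrix.of (x ∘ e)).det ≠ 0 := by
    have h1 : LinearIndependent L (Matrix.of (x ∘ e)).row := hx'
    exact (Matrix.isUnit_iff_isUnit_det _).1
      (Matrix.linearIndependent_rows_iff_isUnit.1 h1) |>.ne_zero
  have hdet : (Matrix.of fun i a => lf B v i ((x ∘ e) a)).det ≠ 0 := by
    rw [lf_det]
    refine mul_ne_zero ?_ ?_
    · exact_mod_cast hB v
    · exact (map_ne_zero v.embedding).2 hdet0
  have hinj : Function.Injective (Matrix.of fun i a => lf B v i ((x ∘ e) a)).mulVec :=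
    Matrix.mulVec_injective_iff_isUnit.2 ((Matrix.isUnit_iff_isUnit_det _).2 hdet.isUnit)
  intro t t' htt
  have h2 : ∀ t : Fin (Fintype.card ι) → ℂ, (Matrix.of fun i a => lf B v i (x a)).mulVec t =
      (Matrix.of fun i a => lf B v i ((x ∘ e) a)).mulVec (t ∘ e) := by
    intro t
    ext i
    simp only [Matrix.mulVec, dotProduct, Matrix.of_apply, Function.comp]
    exact (Equiv.sum_comp e fun a => lf B v i (x a) * t a).symm
  have h3 : t ∘ e = t' ∘ e := hinj (by rw [← h2, ← h2, htt])
  exact e.surjective.injective_comp_right h3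

/-- expansion of a vector in a basis, with the last nonzero coordinate -/
theorem exists_last {L : Type u} [Field L] {n : ℕ} {ι : Type} [Fintype ι]
    (hn : Fintype.card ι = n) (x : Fin n → ι → L) (hx : LinearIndependent L x) (y : ι → L)
    (a : Fin n) (hy : y ∉ Submodule.span L (x '' {b | b < a})) :
    ∃ (t : Fin n → L) (a' : Fin n), y = ∑ b, t b • x b ∧ a ≤ a' ∧ (∀ b, a' < b → t b = 0) ∧
      y ∉ Submodule.span L (x '' {b | b < a'}) := by
  classical
  have hspan : y ∈ Submodule.span L (Set.range x) := by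
    rw [hx.span_eq_top_of_card_eq_finrank' (by simp [hn])]
    trivial
  obtain ⟨t, ht⟩ := (Submodule.mem_span_range_iff_exists_fun L).1 hspan
  have hex : ∃ b, a ≤ b ∧ t b ≠ 0 := by
    by_contra hcon
    push Not at hcon
    apply hy
    rw [← ht]
    refine Submodule.sum_mem _ fun b _ => ?_
    by_cases hb : b < a
    · exact Submodule.smul_mem _ _ (Submodule.subset_span ⟨b, hb, rfl⟩)
    · rw [hcon b (not_lt.1 hb), zero_smul]
      exact Submodule.zero_mem _
  obtain ⟨b₀, hb₀, hb₀'⟩ := hex
  have hne : (Finset.univ.filter fun b => t b ≠ 0).Nonempty := ⟨b₀, by simpa using hb₀'⟩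
  let a' := (Finset.univ.filter fun b => t b ≠ 0).max' hne
  have ha'mem : t a' ≠ 0 := by
    have := (Finset.univ.filter fun b => t b ≠ 0).max'_mem hne
    simpa using this
  have hlast : ∀ b, a' < b → t b = 0 := by
    intro b hb
    by_contra hb'
    exact absurd ((Finset.univ.filter fun b => t b ≠ 0).le_max' b (by simpa using hb'))
      (not_le.2 hb)
  refine ⟨t, a', ht.symm, hb₀.trans (Finset.le_max' _ _ (by simpa using hb₀')), hlast, ?_⟩
  intro hmem
  have h1 : x a' ∈ Submodule.span L (x '' {b | b < a'}) := by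
    have h2 : t a' • x a' = y - ∑ b ∈ Finset.univ.erase a', t b • x b := by
      rw [← ht, ← Finset.add_sum_erase Finset.univ _ (Finset.mem_univ a')]
      simp
    have h3 : t a' • x a' ∈ Submodule.span L (x '' {b | b < a'}) := by
      rw [h2]
      refine Submodule.sub_mem _ hmem (Submodule.sum_mem _ fun b hb => ?_)
      rcases lt_trichotomy b a' with h | h | h
      · exact Submodule.smul_mem _ _ (Submodule.subset_span ⟨b, h, rfl⟩)
      · exact absurd h (Finset.ne_of_mem_erase hb)
      · rw [hlast b h, zero_smul]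
        exact Submodule.zero_mem _
    exact (Submodule.smul_mem_iff _ ha'mem).1 h3
  exact hx.notMem_span_image (s := {b | b < a'}) (by simp) h1

theorem DAV (h : T_PIV) : T_DAV.{u} := by
  intro n
  obtain ⟨D, hD0, hD⟩ := h n
  refine ⟨D⁻¹, inv_pos.2 hD0, ?_⟩
  intro L _ _ ι _ _ hn
  subst hn
  intro B w hB hw x hx ρ hρ hanti hmono
  have hπ : ∀ v : InfinitePlace L, ∃ π : ι ≃ Fin (Fintype.card ι),
      ∀ (a : Fin (Fintype.card ι)) (t : Fin (Fintype.card ι) → ℂ), (∀ b, a < b → t b = 0) →
      ∑ i, ‖(Matrix.of fun i a => lf B v i (x a) / w v i).mulVec t i‖ ≤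
        D * ∑ i ∈ Finset.univ.filter (fun i => π i ≤ a),
          ‖(Matrix.of fun i a => lf B v i (x a) / w v i).mulVec t i‖ := by
    intro v
    refine hD ι rfl _ ?_
    intro t t' htt
    apply lf_mulVec_injective B hB v x hx.li
    ext i
    have h1 := congrFun htt i
    simp only [Matrix.mulVec, dotProduct, Matrix.of_apply] at h1 ⊢
    have h2 : ∀ s : Fin (Fintype.card ι) → ℂ, ∑ a, lf B v i (x a) * s a =
        (w v i : ℂ) * ∑ a, lf B v i (x a) / (w v i : ℂ) * s a := by
      intro s
      have hw0 : (w v i : ℂ) ≠ 0 := by exact_mod_cast (hw v i).ne'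
      rw [Finset.mul_sum]
      refine Finset.sum_congr rfl fun a _ => ?_
      field_simp
    rw [h2 t, h2 t', h1]
  choose π hπ using hπ
  refine ⟨π, fun y hy a hya => ?_⟩
  obtain ⟨t, a', hyt, haa', hlast, hya'⟩ := exists_last rfl x hx.li y a hya
  have hmin : Nw B w (x a') ≤ Nw B w y := by
    by_contra hcon
    exact hya' (hx.min y hy a' (not_le.1 hcon))
  have hv : ∀ v : InfinitePlace L, D⁻¹ * ρ a' * ∑ i, ‖lf B v i y‖ / w v i ≤
      ∑ i, ‖lf B v i y‖ / (w v i / ρ (π v i)) := by
    intro v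
    have h1 := hπ v a' (fun b => v.embedding (t b)) (fun b hb => by rw [hlast b hb, map_zero])
    have h2 : ∀ i, ‖(Matrix.of fun i a => lf B v i (x a) / w v i).mulVec
        (fun b => v.embedding (t b)) i‖ = ‖lf B v i y‖ / w v i := by
      intro i
      have h3 : (Matrix.of fun i a => lf B v i (x a) / w v i).mulVec
          (fun b => v.embedding (t b)) i = lf B v i y / w v i := by
        rw [hyt, lf_sum]
        simp only [Matrix.mulVec, dotProduct, Matrix.of_apply]
        rw [Finset.sum_div]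
        refine Finset.sum_congr rfl fun b _ => by ring
      rw [h3, norm_div, Complex.norm_real, Real.norm_of_nonneg (hw v i).le]
    simp only [h2] at h1
    have h4 : D⁻¹ * ∑ i, ‖lf B v i y‖ / w v i ≤
        ∑ i ∈ Finset.univ.filter (fun i => π v i ≤ a'), ‖lf B v i y‖ / w v i := by
      rw [inv_mul_le_iff₀ hD0]
      exact h1
    calc D⁻¹ * ρ a' * ∑ i, ‖lf B v i y‖ / w v i
        = ρ a' * (D⁻¹ * ∑ i, ‖lf B v i y‖ / w v i) := by ring
      _ ≤ ρ a' * ∑ i ∈ Finset.univ.filter (fun i => π v i ≤ a'), ‖lf B v i y‖ / w v i :=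
          mul_le_mul_of_nonneg_left h4 (hρ a').le
      _ = ∑ i ∈ Finset.univ.filter (fun i => π v i ≤ a'), ρ a' * (‖lf B v i y‖ / w v i) := by
          rw [Finset.mul_sum]
      _ ≤ ∑ i ∈ Finset.univ.filter (fun i => π v i ≤ a'),
            ‖lf B v i y‖ / (w v i / ρ (π v i)) := by
          refine Finset.sum_le_sum fun i hi => ?_
          have h5 : ρ a' ≤ ρ (π v i) := hanti (Finset.mem_filter.1 hi).2
          have h6 : ‖lf B v i y‖ / (w v i / ρ (π v i)) = ρ (π v i) * (‖lf B v i y‖ / w v i) := by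
            have := (hw v i).ne'
            have := (hρ (π v i)).ne'
            field_simp
          rw [h6]
          exact mul_le_mul_of_nonneg_right h5 (div_nonneg (norm_nonneg _) (hw v i).le)
      _ ≤ ∑ i, ‖lf B v i y‖ / (w v i / ρ (π v i)) :=
          Finset.sum_le_sum_of_subset_of_nonneg (Finset.filter_subset _ _) fun i _ _ =>
            div_nonneg (norm_nonneg _) (div_nonneg (hw v i).le (hρ _).le)
  calc D⁻¹ * ρ a * Nw B w (x a) = D⁻¹ * (ρ a * Nw B w (x a)) := by ring
    _ ≤ D⁻¹ * (ρ a' * Nw B w (x a')) :=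
        mul_le_mul_of_nonneg_left (hmono haa') (inv_pos.2 hD0).le
    _ ≤ D⁻¹ * (ρ a' * Nw B w y) :=
        mul_le_mul_of_nonneg_left (mul_le_mul_of_nonneg_left hmin (hρ a').le) (inv_pos.2 hD0).le
    _ = ∑ v : InfinitePlace L, D⁻¹ * ρ a' * ∑ i, ‖lf B v i y‖ / w v i := by
        rw [Nw, ← Finset.mul_sum]
        ring
    _ ≤ Nw B (fun v i => w v i / ρ (π v i)) y := Finset.sum_le_sum fun v _ => hv v

end Pool.Agent.H21.UE
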