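import Pool.Agent.H21.UE.Defs

/-!
# GRID: vanishing at grid points implies vanishing on the subspaces
-/

open MvPolynomial

namespace Pool.Agent.H21.UE

set_option linter.unusedSectionVars false
set_option linter.unusedSimpArgs false

universe u

section
variable {K : Type u} [Field K] {κ : Type*} [DecidableEq κ]

/-- the slice of a polynomial in the direction of the variable `q` through the exponent `J` -/
noncomputable def sl (q : κ) (J : κ →₀ ℕ) : MvPolynomial κ K →ₗ[K] Polynomial K :=
  (basisMonomials κ K).constr K fun I => if J.update q (I q) = I then Polynomial.X ^ (I q) else 0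

theorem sl_monomial (q : κ) (J I : κ →₀ ℕ) (a : K) :
    sl q J (monomial I a) = if J.update q (I q) = I then Polynomial.monomial (I q) a else 0 := by
  have h : (monomial I a : MvPolynomial κ K) = a • basisMonomials κ K I := by
    rw [coe_basisMonomials, smul_monomial, smul_eq_mul, mul_one]
  rw [h, map_smul, sl, Module.Basis.constr_basis]
  split_ifs
  · rw [Polynomial.smul_eq_C_mul, Polynomial.C_mul_X_pow_eq_monomial]
  · rw [smul_zero]

theorem sl_coeff (q : κ) (J : κ →₀ ℕ) (p : MvPolynomial κ K) (k : ℕ) :
    (sl q J p).coeff k = p.coeff (J.update q k) := by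
  induction p using MvPolynomial.induction_on' with
  | monomial I a =>
    rw [sl_monomial, coeff_monomial]
    by_cases h : J.update q (I q) = I
    · rw [if_pos h, Polynomial.coeff_monomial]
      by_cases hk : I q = k
      · subst hk
        rw [if_pos rfl, if_pos h.symm]
      · rw [if_neg hk, if_neg]
        intro h'
        exact hk (by rw [h']; simp)
    · rw [if_neg h, if_neg, Polynomial.coeff_zero]
      intro h'
      refine h ?_
      have : I q = k := by rw [h']; simp
      rw [this, h']
  | add p q hp hq => rw [map_add, Polynomial.coeff_add, coeff_add, hp, hq]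

theorem tay_single_monomial (q : κ) (c : K) (I : κ →₀ ℕ) (a : K) :
    tay (Pi.single q c) (monomial I a) = ∑ k ∈ Finset.range (I q + 1),
      monomial (I.update q k) (a * (c ^ (I q - k) * ((I q).choose k : K))) := by
  have h0 : (monomial I a : MvPolynomial κ K) = monomial (I.erase q) a * X q ^ (I q) := by
    rw [X_pow_eq_monomial, monomial_mul, mul_one, Finsupp.erase_add_single]
  have h1 : tay (Pi.single q c) (monomial (I.erase q) a) = monomial (I.erase q) a := by
    rw [tay, aeval_monomial, algebraMap_eq]
    conv_rhs => rw [monomial_eq]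
    congr 1
    refine Finset.prod_congr rfl fun i hi => ?_
    have : i ≠ q := by
      rintro rfl
      simp at hi
    simp only [Pi.single_eq_of_ne this, map_zero, add_zero]
  have h2 : tay (Pi.single q c) (X q ^ (I q) : MvPolynomial κ K) = (X q + C c) ^ (I q) := by
    rw [tay, map_pow, aeval_X, Pi.single_eq_same]
  have h3 : tay (Pi.single q c) (monomial I a) =
      tay (Pi.single q c) (monomial (I.erase q) a) * tay (Pi.single q c) (X q ^ (I q)) := by
    unfold tay
    rw [← map_mul, ← h0]
  rw [h3, h1, h2, add_pow, Finset.mul_sum]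
  refine Finset.sum_congr rfl fun k _ => ?_
  have h4 : (I.update q k) = I.erase q + Finsupp.single q k := by
    rw [Finsupp.update_eq_erase_add_single]
  rw [h4, X_pow_eq_monomial, ← map_pow, ← C_eq_coe_nat, mul_assoc (monomial _ 1), ← C_mul,
    mul_comm (monomial _ 1), C_mul_monomial, mul_one, monomial_mul]

theorem tay_add {ξ : κ → K} (p q : MvPolynomial κ K) : tay ξ (p + q) = tay ξ p + tay ξ q := by
  rw [tay, map_add]; rfl

theorem tay_tay (ξ η : κ → K) (p : MvPolynomial κ K) :
    tay η (tay ξ p) = tay (ξ + η) p := by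
  unfold tay
  rw [← AlgHom.comp_apply]
  congr 1
  apply MvPolynomial.algHom_ext
  intro i
  simp [add_assoc, add_comm (C (η i))]

theorem coeff_tay_single (q : κ) (c : K) (J : κ →₀ ℕ) (p : MvPolynomial κ K) :
    (tay (Pi.single q c) p).coeff J =
      ((sl q J p).comp (Polynomial.X + Polynomial.C c)).coeff (J q) := by
  induction p using MvPolynomial.induction_on' with
  | monomial I a =>
    rw [tay_single_monomial, coeff_sum, sl_monomial]
    simp only [coeff_monomial]
    by_cases h : J.update q (I q) = I
    · rw [if_pos h, Polynomial.monomial_comp, Polynomial.coeff_C_mul, Polynomial.coeff_X_add_C_pow]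
      have h5 : ∀ k, I.update q k = J ↔ k = J q := by
        intro k
        constructor
        · rintro rfl
          simp
        · rintro rfl
          rw [← h]
          ext i
          by_cases hi : i = q
          · subst hi; simp
          · simp [hi]
      simp only [h5]
      by_cases hJ : J q < I q + 1
      · rw [Finset.sum_ite_eq' , if_pos (Finset.mem_range.2 hJ)]
      · rw [Finset.sum_ite_eq', if_neg (by simpa using hJ), Nat.choose_eq_zero_of_lt (by omega)]
        simp
    · rw [if_neg h, Polynomial.zero_comp, Polynomial.coeff_zero]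
      refine Finset.sum_eq_zero fun k _ => ?_
      rw [if_neg]
      rintro rfl
      refine h ?_
      ext i
      by_cases hi : i = q
      · subst hi; simp
      · simp [hi]
  | add p q hp hq =>
    rw [tay_add, coeff_add, map_add, Polynomial.add_comp, Polynomial.coeff_add, hp, hq]

theorem exists_good_point [CharZero K] (f : Polynomial K) (hf : f ≠ 0) (r b : ℕ)
    (hr : f.natDegree ≤ r) (hb : 1 ≤ b) : ∃ a < b, ∃ k, k * b ≤ r ∧
      (f.comp (Polynomial.X + Polynomial.C (a : K))).coeff k ≠ 0 := by
  classical
  have hnz : ∀ a : K, (f.comp (Polynomial.X + Polynomial.C a)).coeff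
      (f.rootMultiplicity a) ≠ 0 := by
    intro a
    rw [Polynomial.rootMultiplicity_eq_natTrailingDegree]
    have h1 : f.comp (Polynomial.X + Polynomial.C a) ≠ 0 := by
      intro h
      refine hf ?_
      have := congrArg (fun g => g.comp (Polynomial.X - Polynomial.C a)) h
      simpa [Polynomial.comp_assoc] using this
    exact fun h => h1 (Polynomial.trailingCoeff_eq_zero.1 h)
  by_contra hcon
  push Not at hcon
  have h1 : ∀ a ∈ Finset.range b, r < f.rootMultiplicity (a : K) * b := by
    intro a ha
    by_contra h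
    rw [not_lt] at h
    exact hnz a (hcon a (Finset.mem_range.1 ha) _ h)
  have h2 : ∑ a ∈ Finset.range b, f.rootMultiplicity (a : K) ≤ r := by
    have h3 : ∑ a ∈ Finset.range b, f.rootMultiplicity (a : K) =
        ∑ x ∈ (Finset.range b).map ⟨fun a : ℕ => (a : K), Nat.cast_injective⟩, f.roots.count x := by
      rw [Finset.sum_map]
      simp
    rw [h3]
    refine le_trans ?_ ((Polynomial.card_roots' f).trans hr)
    rw [← Multiset.sum_count_eq_card (s := (Finset.range b).map
      ⟨fun a : ℕ => (a : K), Nat.cast_injective⟩ ∪ f.roots.toFinset) (m := f.roots)]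
    · exact Finset.sum_le_sum_of_subset Finset.subset_union_left
    · intro a ha
      exact Finset.mem_union_right _ (Multiset.mem_toFinset.2 ha)
  have h4 : ∑ _a ∈ Finset.range b, r < ∑ a ∈ Finset.range b, f.rootMultiplicity (a : K) * b :=
    Finset.sum_lt_sum_of_nonempty (Finset.nonempty_range_iff.2 (by omega)) h1
  rw [← Finset.sum_mul, Finset.sum_const, Finset.card_range, smul_eq_mul] at h4
  have h5 : (∑ a ∈ Finset.range b, f.rootMultiplicity (a : K)) * b ≤ r * b :=
    Nat.mul_le_mul_right _ h2
  rw [mul_comm b r] at h4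
  omega

theorem coeff_le_degreeOf {p : MvPolynomial κ K} {J : κ →₀ ℕ} (h : p.coeff J ≠ 0) (q : κ) :
    J q ≤ p.degreeOf q := by
  rw [degreeOf_eq_sup]
  exact Finset.le_sup (f := fun m : κ →₀ ℕ => m q) (mem_support_iff.2 h)

theorem degreeOf_tay_single (q q' : κ) (c : K) (p : MvPolynomial κ K) :
    (tay (Pi.single q c) p).degreeOf q' ≤ p.degreeOf q' := by
  rw [degreeOf_le_iff]
  intro J hJ
  rw [mem_support_iff, coeff_tay_single] at hJ
  have h1 : J q ≤ (sl q J p).natDegree := by
    by_contra h
    rw [not_le] at h
    refine hJ (Polynomial.coeff_eq_zero_of_natDegree_lt ?_)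
    rwa [Polynomial.natDegree_comp, Polynomial.natDegree_X_add_C, mul_one]
  have h2 : sl q J p ≠ 0 := by
    rintro h
    rw [h] at hJ
    simp at hJ
  have h3 : p.coeff (J.update q (sl q J p).natDegree) ≠ 0 := by
    rw [← sl_coeff]
    exact Polynomial.leadingCoeff_ne_zero.2 h2
  have h4 := coeff_le_degreeOf h3 q'
  by_cases hq : q' = q
  · subst hq
    refine h1.trans ?_
    simpa using h4
  · simpa [hq] using h4

theorem grid_aux [CharZero K] (r : κ → ℕ) (G : MvPolynomial κ K) (b : ℕ)
    (hG : ∀ q, G.degreeOf q ≤ r q) (hb : 1 ≤ b) (J₀ : κ →₀ ℕ) (hJ₀ : G.coeff J₀ ≠ 0)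
    (S : Finset κ) : ∃ g : κ → ℕ, (∀ q, g q < b) ∧ (∀ q, q ∉ S → g q = 0) ∧
      (∀ q, (tay (fun q => (g q : K)) G).degreeOf q ≤ r q) ∧
      ∃ J : κ →₀ ℕ, (∀ q, q ∉ S → J q = J₀ q) ∧ (∀ q ∈ S, J q * b ≤ r q) ∧
        (tay (fun q => (g q : K)) G).coeff J ≠ 0 := by
  induction S using Finset.induction_on with
  | empty =>
    have h0 : tay (fun q : κ => (((fun _ => 0 : κ → ℕ) q : ℕ) : K)) G = G := by
      unfold tay
      simp only [Nat.cast_zero, map_zero, add_zero]
      exact aeval_X_left_apply G
    refine ⟨fun _ => 0, fun _ => hb, fun _ _ => rfl, ?_, J₀, fun _ _ => rfl, by simp, ?_⟩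
    · rw [h0]
      exact hG
    · rw [h0]
      exact hJ₀
  | insert s S hs ih =>
    obtain ⟨g, hgb, hg0, hdeg, J, hJ0, hJb, hJ⟩ := ih
    set G' := tay (fun q => (g q : K)) G with hG'
    have h1 : sl s J G' ≠ 0 := by
      intro h
      refine hJ ?_
      have h2 := sl_coeff s J G' (J s)
      rw [h, Polynomial.coeff_zero] at h2
      rw [h2]
      congr 1
      ext i
      by_cases hi : i = s
      · subst hi; simp
      · simp [hi]
    have h2 : (sl s J G').natDegree ≤ r s := by
      rw [Polynomial.natDegree_le_iff_coeff_eq_zero]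
      intro N hN
      rw [sl_coeff]
      by_contra h3
      have h4 := coeff_le_degreeOf h3 s
      have h5 := hdeg s
      simp at h4
      omega
    obtain ⟨a, hab, k, hk, hne⟩ := exists_good_point _ h1 (r s) b h2 hb
    have h3 : tay (fun q => ((Function.update g s a q : ℕ) : K)) G =
        tay (Pi.single s (a : K)) G' := by
      rw [hG', tay_tay]
      congr 1
      funext q
      by_cases hq : q = s
      · subst hq
        simp [hg0 _ hs]
      · simp [hq]
    refine ⟨Function.update g s a, ?_, ?_, ?_, J.update s k, ?_, ?_, ?_⟩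
    · intro q
      by_cases hq : q = s
      · subst hq; simpa using hab
      · simpa [hq] using hgb q
    · intro q hq
      have hqs : q ≠ s := fun h => hq (by simp [h])
      have hqS : q ∉ S := fun h => hq (by simp [h])
      simpa [hqs] using hg0 q hqS
    · intro q
      rw [h3]
      exact (degreeOf_tay_single _ _ _ _).trans (hdeg q)
    · intro q hq
      have hqs : q ≠ s := fun h => hq (by simp [h])
      have hqS : q ∉ S := fun h => hq (by simp [h])
      simpa [hqs] using hJ0 q hqS
    · intro q hq
      by_cases hqs : q = s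
      · subst hqs; simpa using hk
      · have hqS : q ∈ S := by simpa [hqs] using hq
        simpa [hqs] using hJb q hqS
    · rw [h3, coeff_tay_single]
      have h4 : sl s (J.update s k) G' = sl s J G' := by
        ext i
        rw [sl_coeff, sl_coeff]
        congr 1
        ext i'
        by_cases hi : i' = s
        · subst hi; simp
        · simp [hi]
      rw [h4]
      simpa using hne

end

theorem GRID : T_GRID.{u} := by
  intro K _ _ m ι _ _ j₀ r G b η θ hr hG hb hη hvan J₀ hJ₀
  by_contra hcon
  rw [not_le] at hcon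
  obtain ⟨g, hgb, hg0, -, J, hJ0, hJb, hJ⟩ := grid_aux (fun q : Fin m × ι => r q.1) G b hG hb J₀
    (mem_support_iff.1 hJ₀) (Finset.univ.filter fun q : Fin m × ι => q.2 ≠ j₀ q.1)
  refine hJ (hvan g hgb (fun h => hg0 _ (by simp)) J ?_)
  have hb0 : (0 : ℝ) < b := by exact_mod_cast hb
  have hr0 : ∀ h, (0 : ℝ) < r h := fun h => by exact_mod_cast hr h
  have h1 : ∀ q : Fin m × ι, (J q : ℝ) / r q.1 ≤
      (if q.2 = j₀ q.1 then (J₀ q : ℝ) / r q.1 else 0) + 1 / b := by
    intro q
    by_cases hq : q.2 = j₀ q.1
    · rw [if_pos hq, hJ0 q (by simp [hq])]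
      have : (0 : ℝ) ≤ 1 / b := by positivity
      linarith
    · rw [if_neg hq, zero_add, div_le_div_iff₀ (hr0 _) hb0, one_mul]
      exact_mod_cast hJb q (by simp [hq])
  have h2 : ∑ q : Fin m × ι, (if q.2 = j₀ q.1 then (J₀ q : ℝ) / r q.1 else 0) =
      ∑ h, (J₀ (h, j₀ h) : ℝ) / r h := by
    rw [Fintype.sum_prod_type]
    refine Finset.sum_congr rfl fun h _ => ?_
    simp
  calc ∑ q, (J q : ℝ) / r q.1
      ≤ ∑ q : Fin m × ι, ((if q.2 = j₀ q.1 then (J₀ q : ℝ) / r q.1 else 0) + 1 / b) :=
        Finset.sum_le_sum fun q _ => h1 q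
    _ = ∑ h, (J₀ (h, j₀ h) : ℝ) / r h + m * Fintype.card ι / b := by
        rw [Finset.sum_add_distrib, h2, Finset.sum_const, Finset.card_univ, Fintype.card_prod,
          Fintype.card_fin]
        simp
        ring
    _ < θ + m * Fintype.card ι / b := by linarith
    _ ≤ η := hη

end Pool.Agent.H21.UE
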