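import Mathlib
import Pool.Agent.H21.UE.Defs
import Pool.Agent.H21.UE.M1

/-!
# Module MII: Minkowski's second theorem, upper bound
-/

open MvPolynomial NumberField

namespace Pool.Agent.H21.UE

universe u

theorem lf_eq_zero {L : Type u} [Field L] [NumberField L] {ι : Type} [Fintype ι]
    [DecidableEq ι] (B : InfinitePlace L → Matrix ι ι ℤ) (v : InfinitePlace L)
    (hB : (B v).det ≠ 0) (y : ι → L) (h : ∀ i, lf B v i y = 0) : y = 0 := by
  have hdet : ((B v).map (Int.castRingHom ℂ)).det ≠ 0 := by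
    have := (RingHom.map_det (Int.castRingHom ℂ) (B v)).symm
    have h2 : ((B v).map (Int.castRingHom ℂ)).det = ((B v).det : ℂ) := by simpa using this
    rw [h2]
    exact_mod_cast hB
  have h1 : ((B v).map (Int.castRingHom ℂ)).mulVec (fun j => v.embedding (y j)) = 0 := by
    ext i
    simpa [Matrix.mulVec, dotProduct, lf] using h i
  have h3 : (fun j => v.embedding (y j)) = 0 :=
    Matrix.eq_zero_of_mulVec_eq_zero hdet h1
  ext j
  have h4 := congrFun h3 j
  exact (map_eq_zero v.embedding).1 h4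

theorem Nw_nonneg {L : Type u} [Field L] [NumberField L] {ι : Type} [Fintype ι]
    (B : InfinitePlace L → Matrix ι ι ℤ) (w : InfinitePlace L → ι → ℝ)
    (hw : ∀ v i, 0 < w v i) (y : ι → L) : 0 ≤ Nw B w y :=
  Finset.sum_nonneg fun v _ => Finset.sum_nonneg fun i _ =>
    div_nonneg (norm_nonneg _) (hw v i).le

theorem Nw_pos {L : Type u} [Field L] [NumberField L] {ι : Type} [Fintype ι]
    [DecidableEq ι] (B : InfinitePlace L → Matrix ι ι ℤ) (w : InfinitePlace L → ι → ℝ)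
    (hB : ∀ v, (B v).det ≠ 0) (hw : ∀ v i, 0 < w v i) (y : ι → L) (hy : y ≠ 0) :
    0 < Nw B w y := by
  refine lt_of_le_of_ne (Nw_nonneg B w hw y) fun h => hy ?_
  have h1 := (Finset.sum_eq_zero_iff_of_nonneg (fun v _ => Finset.sum_nonneg fun i _ =>
    div_nonneg (norm_nonneg (lf B v i y)) (hw v i).le)).1 h.symm
  obtain ⟨v⟩ : Nonempty (InfinitePlace L) := inferInstance
  have h2 := (Finset.sum_eq_zero_iff_of_nonneg (fun i _ =>
    div_nonneg (norm_nonneg (lf B v i y)) (hw v i).le)).1 (h1 v (Finset.mem_univ v))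
  refine lf_eq_zero B v (hB v) y fun i => ?_
  have h3 := h2 i (Finset.mem_univ i)
  rw [div_eq_zero_iff] at h3
  rcases h3 with h3 | h3
  · exact norm_eq_zero.1 h3
  · exact absurd h3 (hw v i).ne'

/-- each linear form is bounded by the norm -/
theorem lf_le_Nw {L : Type u} [Field L] [NumberField L] {ι : Type} [Fintype ι]
    (B : InfinitePlace L → Matrix ι ι ℤ) (w : InfinitePlace L → ι → ℝ)
    (hw : ∀ v i, 0 < w v i) (y : ι → L) (v : InfinitePlace L) (i : ι) :
    ‖lf B v i y‖ ≤ Nw B w y * w v i := by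
  rw [← div_le_iff₀ (hw v i)]
  have h1 : ‖lf B v i y‖ / w v i ≤ ∑ i, ‖lf B v i y‖ / w v i :=
    Finset.single_le_sum (f := fun i => ‖lf B v i y‖ / w v i)
      (fun i _ => div_nonneg (norm_nonneg _) (hw v i).le) (Finset.mem_univ i)
  have h2 : ∑ i, ‖lf B v i y‖ / w v i ≤ Nw B w y :=
    Finset.single_le_sum (f := fun v => ∑ i, ‖lf B v i y‖ / w v i)
      (fun v _ => Finset.sum_nonneg fun i _ => div_nonneg (norm_nonneg _) (hw v i).le)
      (Finset.mem_univ v)
  exact h1.trans h2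

/-- the norm is bounded by the linear forms -/
theorem Nw_le_of_lf {L : Type u} [Field L] [NumberField L] {ι : Type} [Fintype ι]
    (B : InfinitePlace L → Matrix ι ι ℤ) (w : InfinitePlace L → ι → ℝ)
    (hw : ∀ v i, 0 < w v i) (y : ι → L) (μ : ℝ) (h : ∀ v i, ‖lf B v i y‖ ≤ μ * w v i) :
    Nw B w y ≤ Fintype.card (InfinitePlace L) * Fintype.card ι * μ := by
  have h1 : ∀ v ∈ (Finset.univ : Finset (InfinitePlace L)),
      ∑ i, ‖lf B v i y‖ / w v i ≤ Fintype.card ι * μ := by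
    intro v _
    have h2 : ∀ i ∈ (Finset.univ : Finset ι), ‖lf B v i y‖ / w v i ≤ μ := fun i _ =>
      (div_le_iff₀ (hw v i)).2 (h v i)
    refine (Finset.sum_le_card_nsmul _ _ _ h2).trans ?_
    rw [Finset.card_univ, nsmul_eq_mul]
  refine (Finset.sum_le_card_nsmul _ _ _ h1).trans ?_
  rw [Finset.card_univ, nsmul_eq_mul, mul_assoc]

/-- dividing the weights by numbers of product one -/
theorem NW_div {L : Type u} [Field L] [NumberField L] {ι : Type} [Fintype ι]
    (w : InfinitePlace L → ι → ℝ) (hw : NW w) {n : ℕ} (ρ : Fin n → ℝ) (hρ : ∀ a, 0 < ρ a)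
    (hprod : ∏ a, ρ a = 1) (π : InfinitePlace L → (ι ≃ Fin n)) :
    NW (fun v i => w v i / ρ (π v i)) := by
  refine ⟨fun v i => div_pos (hw.1 v i) (hρ _), ?_⟩
  simp_rw [div_pow, Finset.prod_div_distrib]
  rw [hw.2, one_div]
  have h : ∀ v : InfinitePlace L, ∏ i, ρ (π v i) ^ v.mult = 1 := by
    intro v
    rw [Finset.prod_pow, Equiv.prod_comp (π v) ρ, hprod, one_pow]
  rw [Finset.prod_congr rfl fun v _ => h v]
  simp

theorem MII (h1 : T_DAV.{u}) (h2 : T_MK1.{u}) : T_MII.{u} := by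
  intro L _ _ ι _ _ _ B hB
  obtain ⟨d, hd0, hd⟩ := h1 (Fintype.card ι)
  obtain ⟨D, hD0, hD⟩ := h2 L ι B hB
  have hn0 : 0 < Fintype.card ι := Fintype.card_pos
  refine ⟨(d⁻¹ * (Fintype.card (InfinitePlace L) * Fintype.card ι * D)) ^ Fintype.card ι,
    ?_, fun w hw x hx => ?_⟩
  · have : 0 < Fintype.card (InfinitePlace L) := Fintype.card_pos
    positivity
  have hlam : ∀ a, 0 < Nw B w (x a) := fun a => Nw_pos B w hB hw.1 _ (hx.li.ne_zero a)
  set κ : ℝ := (∏ a, Nw B w (x a)) ^ ((Fintype.card ι : ℝ)⁻¹) with hκ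
  have hP0 : 0 < ∏ a, Nw B w (x a) := Finset.prod_pos fun a _ => hlam a
  have hκ0 : 0 < κ := Real.rpow_pos_of_pos hP0 _
  have hκn : κ ^ Fintype.card ι = ∏ a, Nw B w (x a) :=
    Real.rpow_inv_natCast_pow hP0.le hn0.ne'
  have hρ : ∀ a, 0 < κ / Nw B w (x a) := fun a => div_pos hκ0 (hlam a)
  have hanti : Antitone fun a => κ / Nw B w (x a) := fun a b hab =>
    div_le_div_of_nonneg_left hκ0.le (hlam a) (hx.mono hab)
  have hmono : Monotone fun a => κ / Nw B w (x a) * Nw B w (x a) := by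
    intro a b _
    simp only
    rw [div_mul_cancel₀ _ (hlam a).ne', div_mul_cancel₀ _ (hlam b).ne']
  obtain ⟨π, hπ⟩ := hd L ι rfl B w hB hw.1 x hx _ hρ hanti hmono
  have hprod : ∏ a, κ / Nw B w (x a) = 1 := by
    rw [Finset.prod_div_distrib, Finset.prod_const, Finset.card_univ, Fintype.card_fin, hκn,
      div_self hP0.ne']
  have hw' := NW_div w hw _ hρ hprod π
  obtain ⟨y, hy0, hyint, hy⟩ := hD _ hw'
  let a₀ : Fin (Fintype.card ι) := ⟨0, hn0⟩
  have hya : y ∉ Submodule.span L (x '' {b | b < a₀}) := by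
    have : {b : Fin (Fintype.card ι) | b < a₀} = ∅ := by
      ext b
      simp [a₀, Fin.lt_def]
    rw [this, Set.image_empty, Submodule.span_empty, Submodule.mem_bot]
    exact hy0
  have h3 := hπ y hyint a₀ hya
  have h4 := Nw_le_of_lf B _ hw'.1 y D hy
  have h5 : d * κ ≤ Fintype.card (InfinitePlace L) * Fintype.card ι * D := by
    refine le_trans (le_of_eq ?_) (h3.trans h4)
    rw [mul_assoc, div_mul_cancel₀ _ (hlam a₀).ne']
  rw [← hκn]
  refine pow_le_pow_left₀ hκ0.le ?_ _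
  rw [le_inv_mul_iff₀ hd0]
  exact h5

end Pool.Agent.H21.UE
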