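import Mathlib
import Pool.Agent.H21.UE.Basic

/-!
# Module PT: the theorem on the penultimate minimum
-/

open MvPolynomial NumberField

namespace Pool.Agent.H21.UE

universe u

theorem Ht_one {L : Type u} [Field L] {T : ℝ} (hT : 1 ≤ T) : Ht (1 : L) T := by
  refine ⟨1, one_ne_zero, ?_, ?_, fun φ => ?_⟩
  · simpa using hT
  · simpa using isIntegral_one
  · simpa using hT

theorem Ht_neg {L : Type u} [Field L] {ξ : L} {T : ℝ} (h : Ht ξ T) : Ht (-ξ) T := by
  obtain ⟨d, hd0, hdT, hint, hφ⟩ := h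
  refine ⟨d, hd0, hdT, ?_, fun φ => ?_⟩
  · rw [mul_neg]
    exact hint.neg
  · rw [mul_neg, map_neg, norm_neg]
    exact hφ φ

theorem exists_annihilator {L : Type u} [Field L] {ι : Type} [Fintype ι] [DecidableEq ι]
    (V : Submodule L (ι → L)) (hV : V ≠ ⊤) :
    ∃ a : ι → L, a ≠ 0 ∧ ∀ x ∈ V, ∑ j, a j * x j = 0 := by
  obtain ⟨f, hf0, hf⟩ := Submodule.exists_le_ker_of_lt_top V (lt_top_iff_ne_top.2 hV)
  have key : ∀ x : ι → L, f x = ∑ j, f (Pi.single j 1) * x j := by
    intro x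
    rw [LinearMap.pi_apply_eq_sum_univ f x]
    refine Finset.sum_congr rfl fun j _ => ?_
    rw [smul_eq_mul, mul_comm]
    congr 2
    ext i
    simp [Pi.single_apply, eq_comm]
  refine ⟨fun j => f (Pi.single j 1), ?_, fun x hx => ?_⟩
  · intro h0
    apply hf0
    ext j
    have := congrFun h0 j
    simpa using this
  · rw [← key]
    exact hf hx

theorem exists_basis_of_hyperplane {L : Type u} [Field L] {ι : Type} [Fintype ι]
    [DecidableEq ι] (V : Submodule L (ι → L)) (S : Set (ι → L))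
    (hV : Module.finrank L V + 1 = Fintype.card ι) (hVS : V = Submodule.span L S) (j₀ : ι)
    (hj₀ : (Pi.single j₀ 1 : ι → L) ∉ V) :
    ∃ z : ι → ι → L, z j₀ = Pi.single j₀ 1 ∧ (∀ i, i ≠ j₀ → z i ∈ S) ∧ LinearIndependent L z := by
  obtain ⟨b, hbS, hb, hli⟩ := exists_linearIndependent L S
  have : Finite b := hli.setFinite
  have : Fintype b := Fintype.ofFinite b
  have hbV : Submodule.span L (Set.range (Subtype.val : b → ι → L)) = V := by
    rw [Subtype.range_coe, hb, hVS]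
  have hcardb : Module.finrank L V = Fintype.card b := by
    rw [← hbV]
    exact finrank_span_eq_card hli
  have hcard : Fintype.card {i // i ≠ j₀} = Fintype.card b := by
    rw [← hcardb, Fintype.card_subtype_compl, Fintype.card_subtype_eq]
    omega
  let e : {i // i ≠ j₀} ≃ b := Fintype.equivOfCardEq hcard
  let z : ι → ι → L := fun i => if h : i = j₀ then Pi.single j₀ 1 else (e ⟨i, h⟩ : ι → L)
  have hz0 : z j₀ = Pi.single j₀ 1 := by simp [z]
  have hz1 : ∀ i (h : i ≠ j₀), z i = (e ⟨i, h⟩ : ι → L) := fun i h => by simp [z, h]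
  refine ⟨z, hz0, fun i hi => ?_, ?_⟩
  · rw [hz1 i hi]
    exact hbS (e ⟨i, hi⟩).2
  · refine linearIndependent_of_top_le_span_of_card_eq_finrank ?_
      (Module.finrank_fintype_fun_eq_card L).symm
    have hVle : V ≤ Submodule.span L (Set.range z) := by
      rw [← hbV]
      refine Submodule.span_mono ?_
      rintro _ ⟨y, rfl⟩
      refine ⟨(e.symm y : ι), ?_⟩
      rw [hz1 _ (e.symm y).2]
      simp
    have hlt : V < Submodule.span L (Set.range z) := by
      refine lt_of_le_of_ne hVle fun heq => hj₀ ?_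
      rw [heq, ← hz0]
      exact Submodule.subset_span ⟨j₀, rfl⟩
    have h1 := Submodule.finrank_lt_finrank_of_lt hlt
    have h2 : Module.finrank L (ι → L) ≤
        Module.finrank L (Submodule.span L (Set.range z)) := by
      rw [Module.finrank_fintype_fun_eq_card]
      omega
    exact (Submodule.eq_top_of_finrank_eq
      (le_antisymm (Submodule.finrank_le _) h2)).ge

theorem degreeOf_inCoord_le {L : Type u} [Field L] {ι : Type} [Fintype ι]
    [DecidableEq ι] {m : ℕ} (z : Fin m → ι → ι → L) (P : MvPolynomial (Fin m × ι) ℤ)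
    (r : Fin m → ℕ) (hP : ∀ J ∈ P.support, ∀ h, ∑ i, J (h, i) = r h) (q : Fin m × ι) :
    (inCoord z P).degreeOf q ≤ r q.1 := by
  classical
  rw [inCoord, aeval_def, eval₂_eq']
  refine (degreeOf_sum_le _ _ _).trans (Finset.sup_le fun J hJ => ?_)
  refine (degreeOf_mul_le _ _ _).trans ?_
  have h1 : (algebraMap ℤ (MvPolynomial (Fin m × ι) L) (P.coeff J)).degreeOf q = 0 := by
    have : algebraMap ℤ (MvPolynomial (Fin m × ι) L) (P.coeff J) = C ((P.coeff J : ℤ) : L) := by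
      simp
    rw [this, degreeOf_C]
  rw [h1, zero_add]
  refine (degreeOf_prod_le _ _ _).trans ?_
  have h2 : ∀ q' : Fin m × ι,
      ((∑ i, C (z q'.1 i q'.2) * X (q'.1, i) : MvPolynomial (Fin m × ι) L) ^ J q').degreeOf q ≤
        if q'.1 = q.1 then J q' else 0 := by
    intro q'
    refine (degreeOf_pow_le _ _ _).trans ?_
    have h3 : (∑ i, C (z q'.1 i q'.2) * X (q'.1, i) : MvPolynomial (Fin m × ι) L).degreeOf q ≤
        if q'.1 = q.1 then 1 else 0 := by
      refine (degreeOf_sum_le _ _ _).trans (Finset.sup_le fun i _ => ?_)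
      refine (degreeOf_C_mul_le _ _ _).trans ?_
      rw [degreeOf_X]
      split_ifs with h4 h5 h5
      · exact le_rfl
      · exact absurd (congrArg Prod.fst h4).symm h5
      · exact Nat.zero_le _
      · exact le_rfl
    split_ifs at h3 ⊢ with h4
    · exact (Nat.mul_le_mul_left _ h3).trans (by simp)
    · exact (Nat.mul_le_mul_left _ h3).trans (by simp)
  refine (Finset.sum_le_sum fun q' _ => h2 q').trans (le_of_eq ?_)
  rw [Fintype.sum_prod_type, Finset.sum_eq_single q.1]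
  · simp only [if_true]
    exact hP J hJ q.1
  · intro h _ hne
    simp [hne]
  · intro h
    exact absurd (Finset.mem_univ _) h

/-- a fast growing sequence of bad numbers -/
theorem exists_fast_seq (bad : ℝ → Prop) (hbad : ∀ X, ∃ Q, X ≤ Q ∧ bad Q) (X₀ M : ℝ)
    (hX₀ : 1 ≤ X₀) (hM : 1 ≤ M) (m : ℕ) : ∃ Q : Fin m → ℝ, (∀ h, X₀ ≤ Q h ∧ bad (Q h)) ∧
      ∀ h h', h < h' → M * Real.log (Q h') ≤ Real.log (Q h) := by
  choose f hf hf' using hbad
  let q : ℕ → ℝ := fun k => Nat.rec (f X₀) (fun _ y => f (max X₀ (Real.exp (M * Real.log y)))) k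
  have hq0 : q 0 = f X₀ := rfl
  have hqs : ∀ k, q (k + 1) = f (max X₀ (Real.exp (M * Real.log (q k)))) := fun k => rfl
  have hX : ∀ k, X₀ ≤ q k ∧ bad (q k) := by
    intro k
    cases k with
    | zero => exact ⟨hf _, hf' _⟩
    | succ k => exact ⟨(le_max_left _ _).trans (hf _), hf' _⟩
  have hpos : ∀ k, 0 < q k := fun k => by linarith [(hX k).1]
  have hlog0 : ∀ k, 0 ≤ Real.log (q k) := fun k => Real.log_nonneg (hX₀.trans (hX k).1)
  have hstep : ∀ k, M * Real.log (q k) ≤ Real.log (q (k + 1)) := by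
    intro k
    rw [Real.le_log_iff_exp_le (hpos (k + 1)), hqs]
    exact (le_max_right _ _).trans (hf _)
  have hmono : ∀ k, Real.log (q k) ≤ Real.log (q (k + 1)) := fun k =>
    le_trans (le_mul_of_one_le_left (hlog0 k) hM) (hstep k)
  have hmono' : Monotone fun k => Real.log (q k) := monotone_nat_of_le_succ hmono
  have hlt : ∀ j k, j < k → M * Real.log (q j) ≤ Real.log (q k) := fun j k hjk =>
    (hstep j).trans (hmono' hjk)
  refine ⟨fun h => q (m - 1 - h), fun h => hX _, fun h h' hh => hlt _ _ ?_⟩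
  have h1 : (h : ℕ) < h' := hh
  have h2 := h'.2
  omega

theorem PT (hAUX : T_AUX.{u}) (hEVAL : T_EVAL.{u}) (hGRID : T_GRID.{u}) (hSPEC : T_SPEC.{u})
    (hSMALL : T_SMALL.{u}) (hROTH : T_ROTH.{u}) : T_PT.{u} := by
  intro L _ _ ι _ _ B c δ hB hc hδ
  rcases Nat.eq_zero_or_pos (Fintype.card ι) with hn | hn
  · refine ⟨0, ⊥, fun Q _ V hV _ => ?_⟩
    omega
  have hne : Nonempty ι := Fintype.card_pos_iff.1 hn
  obtain ⟨ε₁, Q₀, V₀, hε₁, hQ₀, hS⟩ := hSMALL L ι B c δ hB hc hδ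
  by_contra hcon
  push Not at hcon
  have hbad : ∀ X : ℝ, ∃ Q : ℝ, X ≤ Q ∧ ∃ V : Submodule L (ι → L),
      Module.finrank L V + 1 = Fintype.card ι ∧ V = Submodule.span L (SQ B c δ Q) ∧ V ≠ V₀ := by
    intro X
    obtain ⟨Q, hQ, V, h1, h2, h3⟩ := hcon X V₀
    exact ⟨Q, hQ, V, h1, h2, h3⟩
  obtain ⟨ε₀, hε₀, hE⟩ := hEVAL L ι B c δ hB hc hδ
  set ε : ℝ := min ε₀ 1 with hεdef
  have hε : 0 < ε := lt_min hε₀ one_pos
  have hε1 : ε ≤ 1 := min_le_right _ _
  obtain ⟨m₀, D, hD1, hA⟩ := hAUX ι (InfinitePlace L) (fun v => (B v).adjugate) ε hε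
  set m : ℕ := max m₀ 1 with hmdef
  have hm1 : 1 ≤ m := le_max_right _ _
  have hmR : (1 : ℝ) ≤ m := by exact_mod_cast hm1
  have hmpos : (0 : ℝ) < m := by linarith
  set b : ℕ := ⌈(Fintype.card ι : ℝ) / ε⌉₊ + 1 with hbdef
  have hb1 : 1 ≤ b := by omega
  have hbR : (0 : ℝ) < b := by exact_mod_cast hb1
  have hbε : (Fintype.card ι : ℝ) / b ≤ ε := by
    rw [div_le_iff₀ hbR, mul_comm, ← div_le_iff₀ hε]
    refine (Nat.le_ceil _).trans ?_
    rw [hbdef]
    push_cast
    linarith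
  obtain ⟨K, hK0, hK⟩ := hE ε hε (min_le_left _ _) b D hD1
  obtain ⟨ω, hω0, hR⟩ := hROTH m hm1 (ε * m) (mul_pos hε hmpos)
  have hlogD : 0 ≤ Real.log D := Real.log_nonneg hD1
  set K' : ℝ := max K ((2 * m * Real.log D + 2) / (ω * ε₁)) with hK'def
  have hK'0 : 0 < K' := lt_of_lt_of_le hK0 (le_max_left _ _)
  have hK'2 : (2 * m * Real.log D + 2) ≤ K' * (ω * ε₁) := by
    rw [← div_le_iff₀ (mul_pos hω0 hε₁)]
    exact le_max_right _ _
  obtain ⟨Q, hQ, hQfast⟩ := exists_fast_seq (fun Q => ∃ V : Submodule L (ι → L),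
      Module.finrank L V + 1 = Fintype.card ι ∧ V = Submodule.span L (SQ B c δ Q) ∧ V ≠ V₀)
      hbad (max Q₀ (Real.exp K')) (max 1 (2 / ω)) (hQ₀.trans (le_max_left _ _))
      (le_max_left _ _) m
  have hQQ₀ : ∀ h, Q₀ ≤ Q h := fun h => (le_max_left _ _).trans (hQ h).1
  have hQ1 : ∀ h, 1 ≤ Q h := fun h => hQ₀.trans (hQQ₀ h)
  have hQpos : ∀ h, 0 < Q h := fun h => by linarith [hQ1 h]
  have hlogK' : ∀ h, K' ≤ Real.log (Q h) := fun h => by
    rw [Real.le_log_iff_exp_le (hQpos h)]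
    exact (le_max_right _ _).trans (hQ h).1
  have hlogpos : ∀ h, 0 < Real.log (Q h) := fun h => lt_of_lt_of_le hK'0 (hlogK' h)
  have hfast : ∀ h h', h < h' → 2 * Real.log (Q h') ≤ ω * Real.log (Q h) := by
    intro h h' hh
    have h1 := hQfast h h' hh
    have h2 : 2 / ω * Real.log (Q h') ≤ Real.log (Q h) :=
      (mul_le_mul_of_nonneg_right (le_max_right _ _) (hlogpos h').le).trans h1
    rw [div_mul_eq_mul_div, div_le_iff₀ hω0] at h2
    linarith
  choose V hV hVs hVV₀ using fun h => (hQ h).2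
  have hVtop : ∀ h, V h ≠ ⊤ := by
    intro h htop
    have h1 := hV h
    rw [htop, finrank_top, Module.finrank_fintype_fun_eq_card] at h1
    omega
  choose a ha0 haV using fun h => exists_annihilator (V h) (hVtop h)
  have hj₀ : ∀ h, ∃ j, a h j ≠ 0 := fun h => Function.ne_iff.1 (ha0 h)
  choose j₀ hj₀ using hj₀
  have hj₁ : ∀ h, ∃ j₁, ¬ Ht (a h j₁ / a h (j₀ h)) (Q h ^ ε₁) := fun h =>
    hS (Q h) (hQQ₀ h) (V h) (hV h) (hVs h) (hVV₀ h) (a h) (haV h) (j₀ h) (hj₀ h)
  choose j₁ hj₁ using hj₁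
  have hT1 : ∀ h, 1 ≤ Q h ^ ε₁ := fun h => Real.one_le_rpow (hQ1 h) hε₁.le
  have hj₁₀ : ∀ h, j₁ h ≠ j₀ h := by
    intro h heq
    apply hj₁ h
    rw [heq, div_self (hj₀ h)]
    exact Ht_one (hT1 h)
  have hz : ∀ h, ∃ z : ι → ι → L, z (j₀ h) = Pi.single (j₀ h) 1 ∧
      (∀ i, i ≠ j₀ h → z i ∈ SQ B c δ (Q h)) ∧ LinearIndependent L z := by
    intro h
    refine exists_basis_of_hyperplane (V h) _ (hV h) (hVs h) (j₀ h) fun hmem => ?_
    have h1 := haV h _ hmem
    rw [Finset.sum_eq_single (j₀ h)] at h1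
    · rw [Pi.single_eq_same, mul_one] at h1
      exact hj₀ h h1
    · intro j _ hj
      rw [Pi.single_eq_of_ne hj, mul_zero]
    · intro hh
      exact absurd (Finset.mem_univ _) hh
  choose z hz0 hzS hzli using hz
  -- the degrees
  set R : ℝ := (∑ h, Real.log (Q h)) / ε with hRdef
  have hsumpos : 0 < ∑ h, Real.log (Q h) := by
    refine Finset.sum_pos (fun h _ => hlogpos h) ⟨⟨0, hm1⟩, Finset.mem_univ _⟩
  have hR0 : 0 < R := div_pos hsumpos hε
  have hlogR : ∀ h, Real.log (Q h) ≤ ε * R := by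
    intro h
    rw [hRdef, mul_div_cancel₀ _ hε.ne']
    exact Finset.single_le_sum (f := fun h => Real.log (Q h)) (fun h _ => (hlogpos h).le)
      (Finset.mem_univ h)
  let r : Fin m → ℕ := fun h => ⌈R / Real.log (Q h)⌉₊
  have hr1 : ∀ h, 1 ≤ r h := fun h => Nat.ceil_pos.2 (div_pos hR0 (hlogpos h))
  have hrlow : ∀ h, R ≤ r h * Real.log (Q h) := by
    intro h
    rw [← div_le_iff₀ (hlogpos h)]
    exact Nat.le_ceil _
  have hrup : ∀ h, r h * Real.log (Q h) ≤ (1 + ε) * R := by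
    intro h
    have h1 : (r h : ℝ) < R / Real.log (Q h) + 1 :=
      Nat.ceil_lt_add_one (div_pos hR0 (hlogpos h)).le
    have h2 : (r h : ℝ) * Real.log (Q h) ≤ (R / Real.log (Q h) + 1) * Real.log (Q h) :=
      mul_le_mul_of_nonneg_right h1.le (hlogpos h).le
    rw [add_mul, div_mul_cancel₀ _ (hlogpos h).ne', one_mul] at h2
    have := hlogR h
    linarith
  have hrup2 : ∀ h, (r h : ℝ) * K' ≤ 2 * R := by
    intro h
    have h1 : (r h : ℝ) * K' ≤ r h * Real.log (Q h) :=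
      mul_le_mul_of_nonneg_left (hlogK' h) (Nat.cast_nonneg _)
    have h2 := hrup h
    have h3 : (1 + ε) * R ≤ 2 * R := mul_le_mul_of_nonneg_right (by linarith) hR0.le
    linarith
  obtain ⟨P, hP0, hPhom, hPl1, hPgood⟩ := hA m (le_max_left _ _) r hr1
  have hvan := hK m r Q R hm1 hR0 hr1 hQ1 (fun h => (le_max_left _ _).trans (hlogK' h))
    (fun h => ⟨hrlow h, hrup h⟩) P hPhom hPl1 hPgood j₀ z hz0 hzS
  have hgrid := hGRID L m ι j₀ r (inCoord z P) b (2 * ε * m) (ε * m) hr1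
    (fun q => degreeOf_inCoord_le z P r hPhom q) hb1
    (by
      have h1 : (m : ℝ) * Fintype.card ι / b ≤ m * ε := by
        rw [mul_div_assoc]
        exact mul_le_mul_of_nonneg_left hbε hmpos.le
      linarith) hvan
  have hkill : ∀ h i, i ≠ j₀ h → ∑ j, a h j * z h i j = 0 := by
    intro h i hi
    refine haV h _ ?_
    rw [hVs h]
    exact Submodule.subset_span (hzS h i hi)
  obtain ⟨p, hp0, hpdeg, hpl1, hpind⟩ := hSPEC L m ι j₀ j₁ r a z P (ε * m) hj₁₀ hr1 hP0 hPhom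
    hj₀ hzli hkill hgrid
  refine hR L _ r p (fun h => Q h ^ ε₁) hp0 hr1 ?_ hpdeg hT1
    (fun h hh => hj₁ h (by simpa using Ht_neg hh)) ?_ hpind
  · intro h h' hh
    have h1 := hfast h h' hh
    have h2 := hrup h
    have h3 := hrlow h'
    have h4 : (1 + ε) * R ≤ 2 * R := mul_le_mul_of_nonneg_right (by linarith) hR0.le
    -- r h * log Q h ≤ 2 R ≤ 2 r h' log Q h' ≤ r h' ω log Q h
    have h5 : (r h : ℝ) * Real.log (Q h) ≤ (ω * r h') * Real.log (Q h) := by
      calc (r h : ℝ) * Real.log (Q h) ≤ 2 * R := h2.trans h4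
        _ ≤ 2 * (r h' * Real.log (Q h')) := by linarith
        _ = r h' * (2 * Real.log (Q h')) := by ring
        _ ≤ r h' * (ω * Real.log (Q h)) := mul_le_mul_of_nonneg_left h1 (Nat.cast_nonneg _)
        _ = _ := by ring
    exact le_of_mul_le_mul_right h5 (hlogpos h)
  · intro h h'
    rw [Real.log_rpow (hQpos h)]
    have h1 : Real.log (l1 p) ≤ (∑ h, (r h : ℝ)) * Real.log D := by
      have h2 : Real.log (l1 p) ≤ Real.log (D ^ (∑ h, r h)) :=
        Real.log_le_log (by linarith [one_le_l1 hp0]) (hpl1.trans hPl1)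
      rw [Real.log_pow] at h2
      push_cast at h2
      exact h2
    have h3 : (∑ h, (r h : ℝ)) * K' ≤ m * (2 * R) := by
      rw [Finset.sum_mul]
      refine (Finset.sum_le_card_nsmul _ _ _ fun h _ => hrup2 h).trans ?_
      rw [Finset.card_univ, Fintype.card_fin, nsmul_eq_mul]
    have h4 : (Real.log (l1 p) + r h') * K' ≤ (ω * r h * (ε₁ * Real.log (Q h))) * K' := by
      calc (Real.log (l1 p) + r h') * K'
          ≤ ((∑ h, (r h : ℝ)) * Real.log D + r h') * K' :=
            mul_le_mul_of_nonneg_right (by linarith) hK'0.le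
        _ = ((∑ h, (r h : ℝ)) * K') * Real.log D + r h' * K' := by ring
        _ ≤ (m * (2 * R)) * Real.log D + 2 * R :=
            add_le_add (mul_le_mul_of_nonneg_right h3 hlogD) (hrup2 h')
        _ = (2 * m * Real.log D + 2) * R := by ring
        _ ≤ (K' * (ω * ε₁)) * R := mul_le_mul_of_nonneg_right hK'2 hR0.le
        _ ≤ (K' * (ω * ε₁)) * (r h * Real.log (Q h)) :=
            mul_le_mul_of_nonneg_left (hrlow h)
              (mul_nonneg hK'0.le (mul_nonneg hω0.le hε₁.le))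
        _ = _ := by ring
    exact le_of_mul_le_mul_right h4 hK'0

end Pool.Agent.H21.UE
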