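import Pool.Agent.H21.UE.PST
import Pool.Agent.H21.UE.PT
import Pool.Agent.H21.UE.DAV
import Pool.Agent.H21.UE.MII
import Pool.Agent.H21.UE.GRID
import Pool.Agent.H4.UE.EXT
import Pool.Agent.H4.UE.HAS
import Pool.Agent.H80.UE.Roth
import Pool.Agent.H80.UE.Spec
import Pool.Agent.H80.UE.Small
import Pool.Agent.H95.UE.HYP
import Pool.Agent.H95.UE.UEQ
import Pool.Agent.H95.UE.UNI
import Pool.Agent.H95.UE.ONLY
import Pool.Agent.H34.UE.BAS
import Pool.Agent.H34.UE.IF
import Pool.Agent.H27.UE.AuxPoly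
import Pool.Agent.H27.UE.MIN
import Pool.Agent.H27.UE.MK1
import Pool.Agent.H42.UE.EVAL
import Pool.Agent.H51.UE.CNT
import Pool.Agent.H51.UE.PIV
import Pool.Agent.H77.UE.RED

/-!
# FIN: assembling the modules
-/

namespace Pool.Agent.H21.UE

universe u

/-- the parametric subspace theorem (archimedean places, integral points) -/
theorem pst_main : T_PST.{u} := by
  have hDAV : T_DAV.{u} := DAV PIV
  have hMII : T_MII.{u} := MII hDAV MK1
  have hROTH : T_ROTH.{u} := ROTH H4.UE.HAS H4.UE.WRO BAS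
  have hPT : T_PT.{u} := PT (AUX CNT) EVAL GRID SPEC SMALL hROTH
  exact PST (PTW hPT M1) (RED H4.UE.EXT MIN hMII hDAV M1) M1 MIN H4.UE.EXT

/-- the theorem on unit equations -/
theorem ueq_main : T_UEQ.{u} := UEQ (HYP pst_main UNI)

theorem FIN (K : Type u) [Field K] [NumberField K] (m : ℕ) :
    (sumUnits K m).Infinite ↔ ∃ F : IntermediateField ℚ K, Good K m F :=
  ⟨ONLY ueq_main K m, fun ⟨F, hF⟩ => IF K m F hF⟩

end Pool.Agent.H21.UE
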