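import Mathlib
import Pool.Agent.H21.UE.Defs
import Pool.Agent.H21.UE.MII

/-!
# Module PTW: the penultimate minimum with variable weights
-/

open MvPolynomial NumberField

namespace Pool.Agent.H21.UE

universe u

theorem exists_li_of_span_top {L : Type u} [Field L] {ι : Type} [Fintype ι] [DecidableEq ι]
    {S : Set (ι → L)} (h : Submodule.span L S = ⊤) :
    ∃ x : ι → ι → L, LinearIndependent L x ∧ ∀ a, x a ∈ S := by
  obtain ⟨b, hbS, hb, hli⟩ := exists_linearIndependent L S
  have hb' : Submodule.span L (Set.range (Subtype.val : b → ι → L)) = ⊤ := by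
    rw [Subtype.range_coe, hb, h]
  let bas : Module.Basis b L (ι → L) := Module.Basis.mk hli hb'.ge
  have : Finite b := hli.setFinite
  have : Fintype b := Fintype.ofFinite b
  have hcard : Fintype.card ι = Fintype.card b := by
    rw [← Module.finrank_eq_card_basis bas, Module.finrank_fintype_fun_eq_card]
  let e : ι ≃ b := Fintype.equivOfCardEq hcard
  exact ⟨fun a => (e a : ι → L), hli.comp _ e.injective, fun a => hbS (e a).2⟩

/-- small vectors span a proper subspace -/
theorem span_Sm_ne_top (hM1 : T_M1.{u}) {L : Type u} [Field L] [NumberField L] {ι : Type}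
    [Fintype ι] [DecidableEq ι] (B : InfinitePlace L → Matrix ι ι ℤ) (hB : ∀ v, (B v).det ≠ 0)
    (w : InfinitePlace L → ι → ℝ) (hw : NW w) (μ : ℝ) (hμ : 0 ≤ μ)
    (h : ((Fintype.card ι).factorial : ℝ) * μ ^ Fintype.card ι < 1) :
    Submodule.span L (Sm B w μ) ≠ ⊤ := by
  intro htop
  obtain ⟨x, hli, hx⟩ := exists_li_of_span_top htop
  have := hM1 L ι B w x (fun _ => μ) hB hw (fun a => (hx a).1) hli (fun _ => hμ)
    fun a v i => (hx a).2 v i
  rw [Finset.prod_const, Finset.card_univ] at this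
  exact absurd this (not_le.2 h)

/-- a hyperplane contained in a proper subspace is equal to it -/
theorem eq_of_hyperplane_le {L : Type u} [Field L] {ι : Type} [Fintype ι]
    {V W : Submodule L (ι → L)} (hV : Module.finrank L V + 1 = Fintype.card ι) (hVW : V ≤ W)
    (hW : W ≠ ⊤) : V = W := by
  refine Submodule.eq_of_le_of_finrank_le hVW ?_
  have h1 : Module.finrank L W < Module.finrank L (ι → L) := Submodule.finrank_lt hW
  rw [Module.finrank_fintype_fun_eq_card] at h1
  omega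

theorem SQ_eq_Sm {L : Type u} [Field L] [NumberField L] {ι : Type} [Fintype ι]
    (B : InfinitePlace L → Matrix ι ι ℤ) (c : InfinitePlace L → ι → ℝ) (δ Q : ℝ) (hQ : 0 < Q) :
    SQ B c δ Q = Sm B (fun v i => Q ^ c v i) (Q ^ (-δ)) := by
  ext x
  simp only [SQ, Sm, Set.mem_ofPred_eq]
  have : ∀ v i, Q ^ (c v i - δ) = Q ^ (-δ) * Q ^ c v i := by
    intro v i
    rw [← Real.rpow_add hQ]
    ring_nf
  simp only [this]

theorem NW_rpow {L : Type u} [Field L] [NumberField L] {ι : Type} [Fintype ι]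
    (c : InfinitePlace L → ι → ℝ) (hc : ∑ v, ∑ i, (v.mult : ℝ) * c v i = 0) (Q : ℝ)
    (hQ : 0 < Q) : NW (fun v i => Q ^ c v i) := by
  refine ⟨fun v i => Real.rpow_pos_of_pos hQ _, ?_⟩
  have h1 : ∀ (v : InfinitePlace L) (i : ι), (Q ^ c v i) ^ v.mult = Q ^ ((v.mult : ℝ) * c v i) := by
    intro v i
    rw [mul_comm, Real.rpow_mul hQ.le, Real.rpow_natCast]
  simp_rw [h1]
  rw [Finset.prod_congr rfl fun v _ =>
    (Real.rpow_sum_of_pos hQ (fun i => (v.mult : ℝ) * c v i) Finset.univ).symm]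
  rw [← Real.rpow_sum_of_pos hQ (fun v : InfinitePlace L => ∑ i, (v.mult : ℝ) * c v i), hc,
    Real.rpow_zero]

theorem PTW (hPT : T_PT.{u}) (hM1 : T_M1.{u}) : T_PTW.{u} := by
  intro L _ _ ι _ _ B E δ hB hδ
  rcases Nat.eq_zero_or_pos (Fintype.card ι) with hn | hn
  · refine ⟨0, ∅, Set.finite_empty, fun Q _ w _ _ V hV _ => ?_⟩
    omega
  let K : Set (InfinitePlace L → ι → ℝ) :=
    {c | (∀ v i, c v i ∈ Set.Icc (-E) E) ∧ ∑ v, ∑ i, (v.mult : ℝ) * c v i = 0}
  have hK : IsCompact K := by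
    have h1 : IsCompact {c : InfinitePlace L → ι → ℝ | ∀ v i, c v i ∈ Set.Icc (-E) E} := by
      have h2 : IsCompact (Set.pi Set.univ fun _ : InfinitePlace L =>
          Set.pi Set.univ fun _ : ι => Set.Icc (-E) E) :=
        isCompact_univ_pi fun _ => isCompact_univ_pi fun _ => isCompact_Icc
      have h3 : {c : InfinitePlace L → ι → ℝ | ∀ v i, c v i ∈ Set.Icc (-E) E} =
          Set.pi Set.univ fun _ : InfinitePlace L => Set.pi Set.univ fun _ : ι =>
            Set.Icc (-E) E := by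
        ext c
        simp only [Set.mem_pi, Set.mem_univ, true_imp_iff]
        exact Iff.rfl
      rw [h3]
      exact h2
    have h4 : IsClosed {c : InfinitePlace L → ι → ℝ | ∑ v, ∑ i, (v.mult : ℝ) * c v i = 0} := by
      refine isClosed_eq ?_ continuous_const
      refine continuous_finsetSum _ fun v _ => continuous_finsetSum _ fun i _ => ?_
      exact continuous_const.mul ((continuous_apply i).comp (continuous_apply v))
    exact h1.inter_right h4
  obtain ⟨t, htK, ht⟩ := hK.elim_nhds_subcover (fun c => Metric.ball c (δ / 2))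
    fun c _ => Metric.ball_mem_nhds c (half_pos hδ)
  have hpt : ∀ c : InfinitePlace L → ι → ℝ, ∑ v, ∑ i, (v.mult : ℝ) * c v i = 0 →
      ∃ (Q₀ : ℝ) (V₀ : Submodule L (ι → L)), ∀ Q : ℝ, Q₀ ≤ Q →
        ∀ V : Submodule L (ι → L), Module.finrank L V + 1 = Fintype.card ι →
        V = Submodule.span L (SQ B c (δ / 2) Q) → V = V₀ :=
    fun c hc => hPT L ι B c (δ / 2) hB hc (half_pos hδ)
  choose! Q₀ V₀ hV₀ using hpt
  have hev : ∀ᶠ Q : ℝ in Filter.atTop, (∀ c ∈ t, Q₀ c ≤ Q) ∧ 2 ≤ Q ∧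
      ((Fintype.card ι).factorial : ℝ) * (Q ^ (-(δ / 2))) ^ Fintype.card ι < 1 := by
    refine Filter.Eventually.and ?_ (Filter.Eventually.and ?_ ?_)
    · exact (Filter.eventually_all_finset t).2 fun c _ => Filter.eventually_ge_atTop _
    · exact Filter.eventually_ge_atTop _
    · have h1 : Filter.Tendsto (fun Q : ℝ => ((Fintype.card ι).factorial : ℝ) *
          (Q ^ (-(δ / 2))) ^ Fintype.card ι) Filter.atTop
          (nhds (((Fintype.card ι).factorial : ℝ) * 0 ^ Fintype.card ι)) :=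
        ((tendsto_rpow_neg_atTop (half_pos hδ)).pow _).const_mul _
      rw [zero_pow hn.ne', mul_zero] at h1
      exact h1.eventually (gt_mem_nhds one_pos)
  obtain ⟨Q₁, hQ₁⟩ := Filter.eventually_atTop.1 hev
  refine ⟨Q₁, V₀ '' t, (Finset.finite_toSet t).image _, fun Q hQ w hw hwE V hV hVs => ?_⟩
  obtain ⟨hQt, hQ2, hQM⟩ := hQ₁ Q hQ
  have hQ0 : 0 < Q := by linarith
  have hQ1 : 1 < Q := by linarith
  have hlogQ : 0 < Real.log Q := Real.log_pos hQ1
  let c : InfinitePlace L → ι → ℝ := fun v i => Real.logb Q (w v i)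
  have hcw : ∀ v i, Q ^ c v i = w v i := fun v i => Real.rpow_logb hQ0 hQ1.ne' (hw.1 v i)
  have hcK : c ∈ K := by
    refine ⟨fun v i => ⟨?_, ?_⟩, ?_⟩
    · rw [← Real.rpow_le_rpow_left_iff hQ1, hcw]
      exact (hwE v i).1
    · rw [← Real.rpow_le_rpow_left_iff hQ1, hcw]
      exact (hwE v i).2
    · have h1 : Real.log (∏ v : InfinitePlace L, ∏ i, w v i ^ v.mult) = 0 := by
        rw [hw.2, Real.log_one]
      rw [Real.log_prod (fun v _ => (Finset.prod_pos fun i _ => pow_pos (hw.1 v i) _).ne')] at h1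
      have h2 : ∀ v : InfinitePlace L, Real.log (∏ i, w v i ^ v.mult) =
          Real.log Q * ∑ i, (v.mult : ℝ) * c v i := by
        intro v
        rw [Real.log_prod (fun i _ => (pow_pos (hw.1 v i) _).ne'), Finset.mul_sum]
        refine Finset.sum_congr rfl fun i _ => ?_
        rw [Real.log_pow]
        simp only [c, Real.logb]
        field_simp
      rw [Finset.sum_congr rfl fun v _ => h2 v, ← Finset.mul_sum] at h1
      exact (mul_eq_zero.1 h1).resolve_left hlogQ.ne'
  obtain ⟨c', hc't, hcc'⟩ := Set.mem_iUnion₂.1 (ht hcK)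
  have hc'0 := (htK c' hc't).2
  have hdist : ∀ v i, c v i - c' v i ≤ δ / 2 := by
    intro v i
    have h1 : dist (c v i) (c' v i) ≤ dist c c' :=
      (dist_le_pi_dist (c v) (c' v) i).trans (dist_le_pi_dist c c' v)
    have h2 : dist c c' < δ / 2 := hcc'
    rw [Real.dist_eq] at h1
    linarith [le_abs_self (c v i - c' v i)]
  have hsub : Sm B w (Q ^ (-δ)) ⊆ SQ B c' (δ / 2) Q := by
    rintro x ⟨hxi, hx⟩
    refine ⟨hxi, fun v i => (hx v i).trans ?_⟩
    rw [← hcw v i, ← Real.rpow_add hQ0]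
    refine Real.rpow_le_rpow_of_exponent_le hQ1.le ?_
    have := hdist v i
    linarith
  have hproper : Submodule.span L (SQ B c' (δ / 2) Q) ≠ ⊤ := by
    rw [SQ_eq_Sm B c' (δ / 2) Q hQ0]
    exact span_Sm_ne_top hM1 B hB _ (NW_rpow c' hc'0 Q hQ0) _
      (Real.rpow_nonneg hQ0.le _) hQM
  have hVeq : V = Submodule.span L (SQ B c' (δ / 2) Q) := by
    refine eq_of_hyperplane_le hV ?_ hproper
    rw [hVs]
    exact Submodule.span_mono hsub
  exact ⟨c', hc't, (hV₀ c' hc'0 Q (hQt c' hc't) V hV hVeq).symm⟩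

end Pool.Agent.H21.UE
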