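import Mathlib
import Pool.Agent.H21.UE.PTW

/-!
# Module PST: the parametric subspace theorem
-/

open MvPolynomial NumberField

namespace Pool.Agent.H21.UE

universe u

theorem cmp_map {n p : ℕ} {R S : Type*} [CommRing R] [CommRing S] (f : R →+* S)
    (A : Matrix (Fin n) (Fin n) R) : cmp p (A.map f) = (cmp p A).map f := by
  ext s t
  simp only [cmp, Matrix.map_apply, RingHom.map_det]
  rfl

theorem cmp_det_ne_zero (hEXT : T_EXT.{u}) (L : Type u) [Field L] [CharZero L] {n p : ℕ}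
    (B : Matrix (Fin n) (Fin n) ℤ) (hB : B.det ≠ 0) : (cmp p B).det ≠ 0 := by
  let A : Matrix (Fin n) (Fin n) L := B.map (Int.castRingHom L)
  have hA : A.det ≠ 0 := by
    have h1 : A.det = ((B.det : ℤ) : L) := by
      have := (RingHom.map_det (Int.castRingHom L) B).symm
      simpa [A] using this
    rw [h1]
    exact_mod_cast hB
  have h2 : cmp p A * cmp p A⁻¹ = 1 := by
    rw [← hEXT.1, Matrix.mul_nonsing_inv A hA.isUnit]
    exact hEXT.2.1 n p L
  have h3 : (cmp p A).det ≠ 0 := by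
    intro h0
    have := congrArg Matrix.det h2
    rw [Matrix.det_mul, h0, zero_mul, Matrix.det_one] at this
    exact zero_ne_one this
  intro h0
  apply h3
  have h4 : (cmp p A).det = (((cmp p B).det : ℤ) : L) := by
    have h5 : cmp p A = (cmp p B).map (Int.castRingHom L) := cmp_map _ _
    rw [h5]
    have := (RingHom.map_det (Int.castRingHom L) (cmp p B)).symm
    simpa using this
  rw [h4, h0, Int.cast_zero]

theorem Sm_mono {L : Type u} [Field L] [NumberField L] {ι : Type} [Fintype ι]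
    (B : InfinitePlace L → Matrix ι ι ℤ) (w : InfinitePlace L → ι → ℝ)
    (hw : ∀ v i, 0 < w v i) {μ μ' : ℝ} (h : μ ≤ μ') : Sm B w μ ⊆ Sm B w μ' :=
  fun _ hx => ⟨hx.1, fun v i => (hx.2 v i).trans (mul_le_mul_of_nonneg_right h (hw v i).le)⟩

theorem PST (hPTW : T_PTW.{u}) (hRED : T_RED.{u}) (hM1 : T_M1.{u}) (hMIN : T_MIN.{u})
    (hEXT : T_EXT.{u}) : T_PST.{u} := by
  intro L _ _ n hn B E δ hB hδ
  set E0 : ℝ := max E 0 with hE0def
  have hE0 : 0 ≤ E0 := le_max_right _ _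
  have hnR : (0 : ℝ) < n := by exact_mod_cast hn
  choose E' D τ G₀ F hD hτ hG₀ hred using fun (k : ℕ) (h1 : 1 ≤ k) (h2 : k < n) =>
    hRED L n k h1 h2 B hB E0 hE0
  have hB2 : ∀ (k : ℕ) (v : InfinitePlace L), (cmp (n - k) (B v)).det ≠ 0 := fun k v =>
    cmp_det_ne_zero hEXT L (B v) (hB v)
  have hδ' : ∀ (k : ℕ) (h1 : 1 ≤ k) (h2 : k < n), 0 < δ * τ k h1 h2 / (4 * n) := by
    intro k h1 h2
    have := hτ k h1 h2
    positivity
  choose Q₁ 𝒱 h𝒱fin h𝒱 using fun (k : ℕ) (h1 : 1 ≤ k) (h2 : k < n) =>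
    hPTW L (Sub n (n - k)) (fun v => cmp (n - k) (B v)) (E' k h1 h2) (δ * τ k h1 h2 / (4 * n))
      (hB2 k) (hδ' k h1 h2)
  -- conditions valid for large Q
  have hgrow : ∀ e : ℝ, 0 < e → ∀ X : ℝ, ∀ᶠ Q : ℝ in Filter.atTop, X ≤ Q ^ e := fun e he X =>
    (tendsto_rpow_atTop he).eventually_ge_atTop X
  have hev : ∀ (k : ℕ) (h1 : 1 ≤ k) (h2 : k < n), ∀ᶠ Q : ℝ in Filter.atTop,
      Q₁ k h1 h2 ≤ Q ∧ G₀ k h1 h2 ≤ Q ^ (δ / (2 * n)) ∧
      D k h1 h2 * (Q ^ (δ / (2 * n))) ^ (-τ k h1 h2) ≤ Q ^ (-(δ * τ k h1 h2 / (4 * n))) ∧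
      (Fintype.card (Sub n (n - k)) = 0 ∨
        ((Fintype.card (Sub n (n - k))).factorial : ℝ) *
          (Q ^ (-(δ * τ k h1 h2 / (4 * n)))) ^ Fintype.card (Sub n (n - k)) < 1) := by
    intro k h1 h2
    refine (Filter.eventually_ge_atTop _).and (Filter.Eventually.and ?_
      (Filter.Eventually.and ?_ ?_))
    · exact hgrow _ (by positivity) _
    · filter_upwards [hgrow (δ * τ k h1 h2 / (4 * n)) (hδ' k h1 h2) (D k h1 h2),
        Filter.eventually_gt_atTop 0] with Q hQ hQ0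
      rw [← Real.rpow_mul hQ0.le]
      calc D k h1 h2 * Q ^ (δ / (2 * n) * -τ k h1 h2)
          ≤ Q ^ (δ * τ k h1 h2 / (4 * n)) * Q ^ (δ / (2 * n) * -τ k h1 h2) :=
            mul_le_mul_of_nonneg_right hQ (Real.rpow_nonneg hQ0.le _)
        _ = Q ^ (-(δ * τ k h1 h2 / (4 * n))) := by
            rw [← Real.rpow_add hQ0]
            congr 1
            field_simp
            ring
    · rcases Nat.eq_zero_or_pos (Fintype.card (Sub n (n - k))) with h0 | h0
      · exact Filter.Eventually.of_forall fun _ => Or.inl h0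
      · have h3 : Filter.Tendsto (fun Q : ℝ => ((Fintype.card (Sub n (n - k))).factorial : ℝ) *
            (Q ^ (-(δ * τ k h1 h2 / (4 * n)))) ^ Fintype.card (Sub n (n - k))) Filter.atTop
            (nhds (((Fintype.card (Sub n (n - k))).factorial : ℝ) *
              0 ^ Fintype.card (Sub n (n - k)))) :=
          ((tendsto_rpow_neg_atTop (hδ' k h1 h2)).pow _).const_mul _
        rw [zero_pow h0.ne', mul_zero] at h3
        exact (h3.eventually (gt_mem_nhds one_pos)).mono fun _ h => Or.inr h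
  have hev' : ∀ᶠ Q : ℝ in Filter.atTop, ∀ k ∈ Finset.range n, ∀ (h1 : 1 ≤ k) (h2 : k < n),
      Q₁ k h1 h2 ≤ Q ∧ G₀ k h1 h2 ≤ Q ^ (δ / (2 * n)) ∧
      D k h1 h2 * (Q ^ (δ / (2 * n))) ^ (-τ k h1 h2) ≤ Q ^ (-(δ * τ k h1 h2 / (4 * n))) ∧
      (Fintype.card (Sub n (n - k)) = 0 ∨
        ((Fintype.card (Sub n (n - k))).factorial : ℝ) *
          (Q ^ (-(δ * τ k h1 h2 / (4 * n)))) ^ Fintype.card (Sub n (n - k)) < 1) := by
    refine (Filter.eventually_all_finset _).2 fun k hk => ?_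
    have h2 : k < n := Finset.mem_range.1 hk
    by_cases h1 : 1 ≤ k
    · exact (hev k h1 h2).mono fun Q hQ _ _ => hQ
    · exact Filter.Eventually.of_forall fun Q h1' => absurd h1' h1
  set cP : ℝ := ((Fintype.card (InfinitePlace L) : ℕ) : ℝ) with hcP
  have hcP0 : 0 < cP := by
    have : 0 < Fintype.card (InfinitePlace L) := Fintype.card_pos
    rw [hcP]
    exact_mod_cast this
  have hfac : (0 : ℝ) < (n.factorial : ℝ) := by exact_mod_cast n.factorial_pos
  obtain ⟨Q₂, hQ₂⟩ := Filter.eventually_atTop.1 (hev'.and ((Filter.eventually_ge_atTop (2 : ℝ)).and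
    (hgrow (δ / 2) (half_pos hδ) (2 * cP * n * n.factorial))))
  refine ⟨Q₂, {⊥} ∪ {W | W ≠ ⊤ ∧ ∃ k ∈ Finset.range n, ∃ (h1 : 1 ≤ k) (h2 : k < n),
    W ∈ F k h1 h2 '' 𝒱 k h1 h2}, ?_, ?_, ?_⟩
  · refine (Set.finite_singleton _).union ?_
    have hfin : (⋃ k ∈ Finset.range n, ⋃ (h1 : 1 ≤ k), ⋃ (h2 : k < n),
        F k h1 h2 '' 𝒱 k h1 h2).Finite := by
      refine Set.Finite.biUnion (Finset.finite_toSet _) fun k _ => ?_
      refine Set.finite_iUnion fun h1 => Set.finite_iUnion fun h2 => ?_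
      exact (h𝒱fin k h1 h2).image _
    refine hfin.subset ?_
    rintro W ⟨_, k, hk, h1, h2, hW⟩
    exact Set.mem_iUnion₂.2 ⟨k, hk, Set.mem_iUnion₂.2 ⟨h1, h2, hW⟩⟩
  · rintro W (rfl | hW)
    · have : Nonempty (Fin n) := ⟨⟨0, hn⟩⟩
      exact bot_ne_top
    · exact hW.1
  intro Q hQ w hw hwE
  obtain ⟨hQk, hQ2, hQδ⟩ := hQ₂ Q hQ
  have hQ0 : 0 < Q := by linarith
  have hQ1 : 1 ≤ Q := by linarith
  obtain ⟨x, hx⟩ := hMIN L (Fin n) B w hB hw.1
  have hN : Fintype.card (Fin n) = n := Fintype.card_fin n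
  set β : ℝ := cP * n * Q ^ (-δ) with hβdef
  have hSβ : ∀ y ∈ Sm B w (Q ^ (-δ)), Nw B w y ≤ β := by
    intro y hy
    have := Nw_le_of_lf B w hw.1 y _ hy.2
    rwa [hN] at this
  let ix : ∀ k : ℕ, k < n → Fin (Fintype.card (Fin n)) := fun k hk => ⟨k, by rwa [hN]⟩
  -- the span of the small vectors
  have hSspan : ∀ (k : ℕ) (hk : k < n), β < Nw B w (x (ix k hk)) →
      Sm B w (Q ^ (-δ)) ⊆ Submodule.span L (x '' {c | (c : ℕ) < k}) := by
    intro k hk hβk y hy
    exact hx.min y hy.1 (ix k hk) (lt_of_le_of_lt (hSβ y hy) hβk)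
  have hpos : ∀ a, 0 < Nw B w (x a) := fun a => Nw_pos B w hB hw.1 _ (hx.li.ne_zero a)
  have hβ0 : 0 ≤ β := by positivity
  -- the last minimum
  have hlast : (2 * n.factorial : ℝ)⁻¹ < Nw B w (x (ix (n - 1) (by omega))) := by
    set l := Nw B w (x (ix (n - 1) (by omega))) with hl
    by_contra hcon
    rw [not_lt] at hcon
    have h1 := hM1 L (Fin n) B w (x ∘ (finCongr hN.symm)) (fun a => Nw B w (x (finCongr hN.symm a)))
      hB hw (fun a j => hx.int _ j) (hx.li.comp _ (finCongr hN.symm).injective)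
      (fun a => (hpos _).le) (fun a v i => lf_le_Nw B w hw.1 _ v i)
    have h2 : ∏ a : Fin n, Nw B w (x (finCongr hN.symm a)) ≤ l ^ n := by
      calc ∏ a : Fin n, Nw B w (x (finCongr hN.symm a)) ≤ ∏ _a : Fin n, l := by
            refine Finset.prod_le_prod (fun a _ => (hpos _).le) fun a _ => ?_
            refine hx.mono ?_
            rw [Fin.le_def]
            simp only [finCongr_apply, Fin.val_cast, ix]
            omega
        _ = l ^ n := by rw [Finset.prod_const, Finset.card_univ, hN]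
    have hl0 : 0 < l := hpos _
    have hl1 : l ≤ 1 := hcon.trans (inv_le_one_of_one_le₀ (by
      have : (1 : ℝ) ≤ n.factorial := by exact_mod_cast n.factorial_pos
      linarith))
    have h3 : l ^ n ≤ l := by
      calc l ^ n ≤ l ^ 1 := pow_le_pow_of_le_one hl0.le hl1 hn
        _ = l := pow_one l
    have hNf : ((Fintype.card (Fin n)).factorial : ℝ) = n.factorial := by rw [hN]
    rw [hNf] at h1
    have h4 : (n.factorial : ℝ) * l ≤ 2⁻¹ := by
      calc (n.factorial : ℝ) * l ≤ n.factorial * (2 * n.factorial : ℝ)⁻¹ :=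
            mul_le_mul_of_nonneg_left hcon hfac.le
        _ = 2⁻¹ := by field_simp
    have h5 : (1 : ℝ) ≤ n.factorial * l :=
      h1.trans (mul_le_mul_of_nonneg_left (h2.trans h3) hfac.le)
    linarith
  set G : ℝ := Q ^ (δ / (2 * n)) with hGdef
  have hG1 : 1 ≤ G := Real.one_le_rpow hQ1 (by positivity)
  have hGn : G ^ n * β ≤ (2 * n.factorial : ℝ)⁻¹ := by
    have h1 : G ^ n = Q ^ (δ / 2) := by
      rw [hGdef, ← Real.rpow_natCast, ← Real.rpow_mul hQ0.le]
      congr 1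
      field_simp
    have h2 : Q ^ (δ / 2) * Q ^ (-δ) = (Q ^ (δ / 2))⁻¹ := by
      rw [← Real.rpow_add hQ0, ← Real.rpow_neg hQ0.le]
      congr 1
      ring
    rw [h1, hβdef]
    calc Q ^ (δ / 2) * (cP * n * Q ^ (-δ)) = cP * n * (Q ^ (δ / 2) * Q ^ (-δ)) := by ring
      _ = cP * n * (Q ^ (δ / 2))⁻¹ := by rw [h2]
      _ ≤ cP * n * (2 * cP * n * n.factorial)⁻¹ := by
          refine mul_le_mul_of_nonneg_left ?_ (by positivity)
          exact inv_anti₀ (by positivity) hQδ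
      _ = (2 * n.factorial : ℝ)⁻¹ := by field_simp
  by_cases h0 : β < Nw B w (x (ix 0 hn))
  · refine ⟨⊥, Or.inl rfl, ?_⟩
    refine (hSspan 0 hn h0).trans ?_
    have : {c : Fin (Fintype.card (Fin n)) | (c : ℕ) < 0} = ∅ := by
      ext c
      simp
    rw [this, Set.image_empty, Submodule.span_empty]
  · rw [not_lt] at h0
    have hex : ∃ (k : ℕ) (h1 : 1 ≤ k) (h2 : k < n), β < Nw B w (x (ix k h2)) ∧
        G * Nw B w (x (ix (k - 1) (by omega))) ≤ Nw B w (x (ix k h2)) := by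
      by_contra hcon
      push Not at hcon
      have hind : ∀ k (hk : k < n), Nw B w (x (ix k hk)) ≤ G ^ k * β := by
        intro k
        induction k with
        | zero =>
          intro hk
          simpa using h0
        | succ k ih =>
          intro hk
          by_cases hβk : β < Nw B w (x (ix (k + 1) hk))
          · have h1 := hcon (k + 1) (by omega) hk hβk
            have h2 := ih (by omega)
            simp only [Nat.add_sub_cancel] at h1
            calc Nw B w (x (ix (k + 1) hk)) ≤ G * Nw B w (x (ix k (by omega))) := h1.le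
              _ ≤ G * (G ^ k * β) := mul_le_mul_of_nonneg_left h2 (by linarith)
              _ = G ^ (k + 1) * β := by ring
          · rw [not_lt] at hβk
            exact hβk.trans (le_mul_of_one_le_left hβ0 (one_le_pow₀ hG1))
      have h1 := hind (n - 1) (by omega)
      have h2 : G ^ (n - 1) * β ≤ G ^ n * β :=
        mul_le_mul_of_nonneg_right (pow_le_pow_right₀ hG1 (by omega)) hβ0
      linarith
    obtain ⟨k, h1, h2, hβk, hgap⟩ := hex
    obtain ⟨hQ₁k, hG₀k, hDG, hproper⟩ := hQk k (Finset.mem_range.2 h2) h1 h2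
    have hwE0 : ∀ v i, Q ^ (-E0) ≤ w v i ∧ w v i ≤ Q ^ E0 := by
      intro v i
      refine ⟨le_trans ?_ (hwE v i).1, (hwE v i).2.trans ?_⟩
      · exact Real.rpow_le_rpow_of_exponent_le hQ1 (neg_le_neg (le_max_left _ _))
      · exact Real.rpow_le_rpow_of_exponent_le hQ1 (le_max_left _ _)
    obtain ⟨w', hw', hw'E, V, hV, hVs, hFV⟩ := hred k h1 h2 w x Q hQ2 hw hwE0 hx
      (ix (k - 1) (by omega)) (ix k h2) (by simp only [ix]; omega) rfl G hG₀k hgap
    have hVeq : V = Submodule.span L (Sm (fun v => cmp (n - k) (B v)) w'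
        (Q ^ (-(δ * τ k h1 h2 / (4 * n))))) := by
      refine eq_of_hyperplane_le hV ?_ ?_
      · rw [hVs]
        exact Submodule.span_mono (Sm_mono _ _ hw'.1 hDG)
      · refine span_Sm_ne_top hM1 _ (hB2 k) w' hw' _ (Real.rpow_nonneg hQ0.le _) ?_
        rcases hproper with h3 | h3
        · omega
        · exact h3
    have hVmem := h𝒱 k h1 h2 Q hQ₁k w' hw' hw'E V hV hVeq
    refine ⟨Submodule.span L (x '' {c | (c : ℕ) < k}), Or.inr ⟨?_, k, Finset.mem_range.2 h2, h1,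
      h2, ⟨V, hVmem, hFV⟩⟩, hSspan k h2 hβk⟩
    intro htop
    have h3 : x (ix k h2) ∉ Submodule.span L (x '' {c | (c : ℕ) < k}) :=
      hx.li.notMem_span_image (by simp [ix])
    rw [htop] at h3
    exact h3 Submodule.mem_top

end Pool.Agent.H21.UE
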